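import Pool.Agent.W2helper79.PF.Renewal

/-!
# The main inequality for renewal sequences
-/

open Finset PowerSeries

namespace Pool.Agent.W2helper79.PF

/-- Truncation: only the first `K` weights are kept. -/
noncomputable def tr (f : ℕ → ℝ) (K i : ℕ) : ℝ := if i < K then f i else 0

theorem tr_nonneg {f : ℕ → ℝ} (hf : ∀ k, 0 ≤ f k) (K i : ℕ) : 0 ≤ tr f K i := by
  unfold tr; split_ifs
  · exact hf i
  · exact le_refl _

theorem tr_le {f : ℕ → ℝ} (hf : ∀ k, 0 ≤ f k) (K i : ℕ) : tr f K i ≤ f i := by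
  unfold tr; split_ifs
  · exact le_refl _
  · exact hf i

theorem tr_sum_le {f : ℕ → ℝ} (hf : ∀ k, 0 ≤ f k) (hs : ∀ N, ∑ i ∈ range N, f i ≤ 1) (K N : ℕ) :
    ∑ i ∈ range N, tr f K i ≤ 1 :=
  (Finset.sum_le_sum fun i _ => tr_le hf K i).trans (hs N)

theorem tr_sum_eq (f : ℕ → ℝ) {K N : ℕ} (h : K ≤ N) :
    ∑ i ∈ range N, tr f K i = ∑ i ∈ range K, f i := by
  have h1 : ∑ i ∈ range K, tr f K i = ∑ i ∈ range N, tr f K i := by
    refine Finset.sum_subset ?_ ?_
    · intro i hi
      rw [Finset.mem_range] at *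
      omega
    · intro i _ hi
      rw [Finset.mem_range] at hi
      unfold tr
      rw [if_neg hi]
  rw [← h1]
  refine Finset.sum_congr rfl fun i hi => ?_
  rw [Finset.mem_range] at hi
  unfold tr
  rw [if_pos hi]

theorem u_congr {f g : ℕ → ℝ} {N : ℕ} (h : ∀ i < N, f i = g i) (n : ℕ) (hn : n ≤ N) :
    u f n = u g n := by
  induction n using Nat.strong_induction_on with
  | _ n ih =>
    cases n with
    | zero => rw [u_zero, u_zero]
    | succ n =>
      rw [u_succ, u_succ]
      refine Finset.sum_congr rfl fun p hp => ?_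
      have := HasAntidiagonal.mem_antidiagonal.mp hp
      rw [h p.1 (by omega), ih p.2 (by omega) (by omega)]

theorem w_congr {f g : ℕ → ℝ} {N : ℕ} (h : ∀ i < N, f i = g i) (n : ℕ) (hn : n ≤ N) :
    w f n = w g n := by
  rw [w_eq, w_eq]
  refine Finset.sum_congr rfl fun p hp => ?_
  have := HasAntidiagonal.mem_antidiagonal.mp hp
  rw [u_congr h p.1 (by omega), u_congr h p.2 (by omega)]

theorem W_congr {f g : ℕ → ℝ} {N : ℕ} (h : ∀ i < N, f i = g i) (n : ℕ) (hn : n ≤ N + 1) :
    W f n = W g n := by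
  induction n with
  | zero => rfl
  | succ n ih =>
    simp only [W]
    rw [ih (by omega), w_congr h n (by omega)]

theorem u_pert (F : ℕ → ℝ) (K z : ℕ) (hz : z ≤ K) :
    u (tr F (K + 1)) (z + (K + 1)) = u (tr F K) (z + (K + 1)) + F K * w (tr F K) z := by
  have hmk : PowerSeries.mk (tr F (K + 1))
      = PowerSeries.mk (tr F K) + PowerSeries.C (F K) * X ^ K := by
    ext i
    rw [map_add, coeff_mk, coeff_mk, coeff_C_mul, coeff_X_pow]
    unfold tr
    by_cases h1 : i < K
    · rw [if_pos (by omega), if_pos h1, if_neg (by omega)]; ring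
    · by_cases h2 : i = K
      · rw [if_pos (by omega), if_neg h1, if_pos h2, h2]; ring
      · rw [if_neg (by omega), if_neg h1, if_neg h2]; ring
  have hf := U_mul (tr F (K + 1))
  have hg := U_mul (tr F K)
  have hU : U (tr F (K + 1)) = U (tr F K)
      + PowerSeries.C (F K) * (U (tr F K) * U (tr F (K + 1)) * X ^ (K + 1)) := by
    rw [hmk] at hf
    linear_combination (U (tr F K)) * hf - (U (tr F (K + 1))) * hg
  have h1 : coeff (z + (K + 1)) (U (tr F (K + 1)))
      = coeff (z + (K + 1)) (U (tr F K)) + F K * coeff z (U (tr F K) * U (tr F (K + 1))) := by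
    conv_lhs => rw [hU]
    rw [map_add, coeff_C_mul, coeff_mul_X_pow]
  have h2 : coeff z (U (tr F K) * U (tr F (K + 1))) = w (tr F K) z := by
    rw [w_eq, coeff_mul]
    refine Finset.sum_congr rfl fun p hp => ?_
    have := HasAntidiagonal.mem_antidiagonal.mp hp
    have h3 : u (tr F (K + 1)) p.2 = u (tr F K) p.2 := by
      refine u_congr (N := K) ?_ p.2 (by omega)
      intro i hi
      unfold tr
      rw [if_pos (by omega), if_pos hi]
    change u (tr F K) p.1 * u (tr F (K + 1)) p.2 = _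
    rw [h3]
  rw [h2] at h1
  exact h1

theorem shift_eq (F : ℕ → ℝ) (K m n : ℕ) (h : K ≤ n + 1) :
    u (tr F K) (m + (n + 1)) = ∑ p ∈ antidiagonal n, tr F K p.1 * u (tr F K) (m + p.2) := by
  have h0 : m + (n + 1) = m + n + 1 := by ring
  rw [h0, u_succ,
    Finset.Nat.sum_antidiagonal_eq_sum_range_succ (fun a b => tr F K a * u (tr F K) b) (m + n),
    Finset.Nat.sum_antidiagonal_eq_sum_range_succ (fun a b => tr F K a * u (tr F K) (m + b)) n]
  symm
  have h1 : ∑ i ∈ range n.succ, tr F K i * u (tr F K) (m + (n - i))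
      = ∑ i ∈ range n.succ, tr F K i * u (tr F K) (m + n - i) := by
    refine Finset.sum_congr rfl fun i hi => ?_
    rw [Finset.mem_range] at hi
    have : m + (n - i) = m + n - i := by omega
    rw [this]
  rw [h1]
  refine Finset.sum_subset ?_ ?_
  · intro i hi
    rw [Finset.mem_range] at *
    omega
  · intro i _ hi
    rw [Finset.mem_range] at hi
    unfold tr
    rw [if_neg (by omega)]
    ring

/-- The defect of multiplicativity. -/
noncomputable def J (f : ℕ → ℝ) (m n : ℕ) : ℝ := u f (m + n) - u f m * u f n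

theorem J_zero (f : ℕ → ℝ) (m : ℕ) : J f m 0 = 0 := by
  unfold J; rw [u_zero, add_zero]; ring

theorem zero_J (f : ℕ → ℝ) (n : ℕ) : J f 0 n = 0 := by
  unfold J; rw [u_zero, zero_add]; ring

theorem J_comm (f : ℕ → ℝ) (m n : ℕ) : J f m n = J f n m := by
  unfold J; rw [add_comm m n]; ring

theorem J_step (F : ℕ → ℝ) (K m n : ℕ) (h : K ≤ n + 1) :
    J (tr F K) m (n + 1) = ∑ p ∈ antidiagonal n, tr F K p.1 * J (tr F K) m p.2 := by
  unfold J
  rw [shift_eq F K m n h, u_succ (tr F K) n, Finset.mul_sum, ← Finset.sum_sub_distrib]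
  refine Finset.sum_congr rfl fun p _ => ?_
  ring

theorem claim_step {F : ℕ → ℝ} (hF : ∀ k, 0 ≤ F k) (hs : ∀ N, ∑ i ∈ range N, F i ≤ 1) (K : ℕ)
    (hsmall : ∀ m n : ℕ, m ≤ K → n ≤ K → ∀ ρ : ℝ, 0 ≤ ρ → ρ ≤ 1 →
      J (tr F (K + 1)) m n + (1 - ∑ i ∈ range (K + 1), F i) * W (tr F (K + 1)) n
        + ρ * u (tr F (K + 1)) n ≤ C (F 0) ρ) (s : ℕ) :
    ∀ m n : ℕ, m + n = s → ∀ ρ : ℝ, 0 ≤ ρ → ρ ≤ 1 →
      J (tr F (K + 1)) m n + (1 - ∑ i ∈ range (K + 1), F i) * W (tr F (K + 1)) n
        + ρ * u (tr F (K + 1)) n ≤ C (F 0) ρ := by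
  have hG := tr_nonneg hF (K + 1)
  have hGs := tr_sum_le hF hs (K + 1)
  have hG0 : tr F (K + 1) 0 = F 0 := by unfold tr; rw [if_pos (Nat.succ_pos K)]
  have hκ : 0 ≤ 1 - ∑ i ∈ range (K + 1), F i := by linarith [hs (K + 1)]
  induction s using Nat.strong_induction_on with
  | _ s ih =>
    intro m n hmn
    rcases Nat.lt_or_ge K n with hn | hn
    · -- `n ≥ K + 1`
      obtain ⟨n, rfl⟩ : ∃ n', n = n' + 1 := ⟨n - 1, by omega⟩
      have hKn : K + 1 ≤ n + 1 := by omega
      refine conv (hF 0) (u_nonneg hG n) (u_le_one hG hGs n) ?_ ?_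
      · have := u_succ_ge hG n
        rwa [hG0] at this
      · intro ρ h0 h1 hc
        rw [J_step F (K + 1) m n hKn]
        have hPW := PW hG hGs n
        rw [hG0] at hPW
        have hmax : max (u (tr F (K + 1)) n) (C (F 0) 0) ≤ C (F 0) ρ :=
          max_le hc (C_zero_le (hF 0) h0)
        have h2 := mul_le_mul_of_nonneg_left (hPW.trans hmax) hκ
        have hsum : ∑ p ∈ antidiagonal n, tr F (K + 1) p.1 = ∑ i ∈ range (K + 1), F i := by
          rw [sum_anti_fst, tr_sum_eq F hKn]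
        have h3 : ∑ p ∈ antidiagonal n, tr F (K + 1) p.1 * (J (tr F (K + 1)) m p.2
            + (1 - ∑ i ∈ range (K + 1), F i) * W (tr F (K + 1)) p.2
            + ρ * u (tr F (K + 1)) p.2) ≤ (∑ i ∈ range (K + 1), F i) * C (F 0) ρ := by
          rw [← hsum, Finset.sum_mul]
          refine Finset.sum_le_sum fun p hp => mul_le_mul_of_nonneg_left ?_ (hG _)
          have hp' := HasAntidiagonal.mem_antidiagonal.mp hp
          rw [hsum]
          exact ih (m + p.2) (by omega) m p.2 rfl ρ h0 h1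
        have h4 : ∑ p ∈ antidiagonal n, tr F (K + 1) p.1 * (J (tr F (K + 1)) m p.2
            + (1 - ∑ i ∈ range (K + 1), F i) * W (tr F (K + 1)) p.2
            + ρ * u (tr F (K + 1)) p.2)
            = ∑ p ∈ antidiagonal n, tr F (K + 1) p.1 * J (tr F (K + 1)) m p.2
              + (1 - ∑ i ∈ range (K + 1), F i)
                * ∑ p ∈ antidiagonal n, tr F (K + 1) p.1 * W (tr F (K + 1)) p.2
              + ρ * u (tr F (K + 1)) (n + 1) := by
          rw [u_succ, Finset.mul_sum, Finset.mul_sum, ← Finset.sum_add_distrib,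
            ← Finset.sum_add_distrib]
          refine Finset.sum_congr rfl fun p _ => ?_
          ring
        rw [h4] at h3
        linarith
    · rcases Nat.lt_or_ge K m with hm | hm
      · obtain ⟨m, rfl⟩ : ∃ m', m = m' + 1 := ⟨m - 1, by omega⟩
        intro ρ h0 h1
        rw [J_comm, J_step F (K + 1) n m (by omega)]
        have hY := ih (0 + n) (by omega) 0 n rfl ρ h0 h1
        rw [zero_J] at hY
        set Y := C (F 0) ρ - (1 - ∑ i ∈ range (K + 1), F i) * W (tr F (K + 1)) n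
          - ρ * u (tr F (K + 1)) n with hYdef
        have hY0 : 0 ≤ Y := by rw [hYdef]; linarith
        have h2 : ∑ p ∈ antidiagonal m, tr F (K + 1) p.1 * J (tr F (K + 1)) n p.2
            ≤ ∑ p ∈ antidiagonal m, tr F (K + 1) p.1 * Y := by
          refine Finset.sum_le_sum fun p hp => mul_le_mul_of_nonneg_left ?_ (hG _)
          have hp' := HasAntidiagonal.mem_antidiagonal.mp hp
          have := ih (p.2 + n) (by omega) p.2 n rfl ρ h0 h1
          rw [J_comm] at this
          rw [hYdef]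
          linarith
        rw [← Finset.sum_mul, sum_anti_fst (tr F (K + 1)) m] at h2
        have h3 := mul_le_of_le_one_left hY0 (hGs (m + 1))
        rw [hYdef] at h3 h2
        linarith
      · exact hsmall m n hm hn

theorem claim {F : ℕ → ℝ} (hF : ∀ k, 0 ≤ F k) (hs : ∀ N, ∑ i ∈ range N, F i ≤ 1) (K : ℕ) :
    ∀ m n : ℕ, ∀ ρ : ℝ, 0 ≤ ρ → ρ ≤ 1 →
      J (tr F (K + 1)) m n + (1 - ∑ i ∈ range (K + 1), F i) * W (tr F (K + 1)) n
        + ρ * u (tr F (K + 1)) n ≤ C (F 0) ρ := by
  have hb1 : F 0 ≤ 1 := by simpa using hs 1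
  induction K with
  | zero =>
    intro m n
    refine claim_step hF hs 0 ?_ (m + n) m n rfl
    intro m n hm hn ρ h0 h1
    obtain rfl : n = 0 := by omega
    have hW : W (tr F (0 + 1)) 0 = 0 := rfl
    rw [J_zero, hW, u_zero]
    have := le_C hb1 h1
    linarith
  | succ K ihK =>
    intro m n
    refine claim_step hF hs (K + 1) ?_ (m + n) m n rfl
    intro m n hm hn ρ h0 h1
    have hagree : ∀ i < K + 1, tr F (K + 1 + 1) i = tr F (K + 1) i := by
      intro i hi
      unfold tr
      rw [if_pos (by omega), if_pos hi]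
    have hum := u_congr hagree m hm
    have hun := u_congr hagree n hn
    have hWn := W_congr hagree n (by omega)
    have h2 := ihK m n ρ h0 h1
    have hW0 := W_nonneg (tr_nonneg hF (K + 1)) n
    have hFW := mul_nonneg (hF (K + 1)) hW0
    have hκ : ∑ i ∈ range (K + 1 + 1), F i = ∑ i ∈ range (K + 1), F i + F (K + 1) :=
      Finset.sum_range_succ F (K + 1)
    unfold J at h2 ⊢
    rw [hum, hun, hWn, hκ]
    rcases Nat.lt_or_ge (K + 1) (m + n) with h3 | h3
    · obtain ⟨z, hz⟩ : ∃ z, m + n = z + (K + 1 + 1) := ⟨m + n - (K + 1 + 1), by omega⟩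
      have hp := u_pert F (K + 1) z (by omega)
      have hwz : w (tr F (K + 1)) z ≤ W (tr F (K + 1)) n := w_le_W _ (by omega)
      have hwz' := mul_le_mul_of_nonneg_left hwz (hF (K + 1))
      rw [hz, hp]
      rw [hz] at h2
      linarith
    · rw [u_congr hagree (m + n) h3]
      linarith

/-- **The sharp inequality for renewal sequences.** -/
theorem renewal_ineq {f : ℕ → ℝ} (hf : ∀ k, 0 ≤ f k) (hs : ∀ N, ∑ i ∈ range N, f i ≤ 1)
    (m n : ℕ) : u f (m + n) ≤ Real.exp (-(f 0 * (1 - u f m))) := by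
  have hagree : ∀ i < m + n + 1, f i = tr f (m + n + 1) i := by
    intro i hi
    unfold tr
    rw [if_pos hi]
  have h1 := claim hf hs (m + n) m n (u f m) (u_nonneg hf m) (u_le_one hf hs m)
  unfold J at h1
  rw [← u_congr hagree (m + n) (by omega), ← u_congr hagree m (by omega),
    ← u_congr hagree n (by omega)] at h1
  have h2 : 0 ≤ (1 - ∑ i ∈ range (m + n + 1), f i) * W (tr f (m + n + 1)) n :=
    mul_nonneg (by linarith [hs (m + n + 1)]) (W_nonneg (tr_nonneg hf (m + n + 1)) n)
  unfold C at h1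
  linarith

end Pool.Agent.W2helper79.PF
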