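import Pool.Agent.W2helper79.PF.Def

/-!
# One-atom p-functions

State 1 is held for an exponential time of rate `lam`, then left for a time exactly `a`, and so on.
-/

open MeasureTheory Filter Topology ProbabilityTheory Finset
open scoped NNReal ENNReal

namespace Pool.Agent.W2helper79.PF

/-- Prepend a value to a sequence. -/
def cons (x : ℝ) (ω : ℕ → ℝ) : ℕ → ℝ
  | 0 => x
  | (n + 1) => ω n

/-- Drop the first value of a sequence. -/
def tail (ω : ℕ → ℝ) : ℕ → ℝ := fun n => ω (n + 1)

theorem cons_zero (x : ℝ) (ω : ℕ → ℝ) : cons x ω 0 = x := rfl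

theorem tail_cons (x : ℝ) (ω : ℕ → ℝ) : tail (cons x ω) = ω := rfl

theorem measurable_cons : Measurable (fun z : ℝ × (ℕ → ℝ) => cons z.1 z.2) := by
  rw [measurable_pi_iff]
  intro n
  cases n with
  | zero => exact measurable_fst
  | succ n => exact (measurable_pi_apply n).comp measurable_snd

theorem measurable_tail : Measurable tail := by
  rw [measurable_pi_iff]
  intro n
  exact measurable_pi_apply (n + 1)

theorem map_cons (μ : Measure ℝ) [IsProbabilityMeasure μ] :
    (μ.prod (Measure.infinitePi fun _ : ℕ => μ)).map (fun z => cons z.1 z.2)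
      = Measure.infinitePi (fun _ : ℕ => μ) := by
  apply Measure.eq_infinitePi
  intro s t ht
  classical
  obtain ⟨N, hN⟩ : ∃ N, ∀ i ∈ s, i < N + 1 :=
    ⟨s.sup id, fun i hi => Nat.lt_succ_of_le (Finset.le_sup (f := id) hi)⟩
  set t' : ℕ → Set ℝ := fun i => if i ∈ s then t i else Set.univ with ht'def
  have ht' : ∀ i, MeasurableSet (t' i) := by
    intro i
    simp only [ht'def]
    split_ifs
    · exact ht i
    · exact MeasurableSet.univ
  have h1 : Set.pi (s : Set ℕ) t = Set.pi (range (N + 1) : Set ℕ) t' := by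
    ext ω
    simp only [Set.mem_pi, Finset.mem_coe, Finset.mem_range, ht'def]
    constructor
    · intro h i _
      split_ifs with his
      · exact h i his
      · exact Set.mem_univ _
    · intro h i hi
      have := h i (hN i hi)
      rwa [if_pos hi] at this
  have h2 : ∏ i ∈ s, μ (t i) = ∏ i ∈ range (N + 1), μ (t' i) := by
    have h3 : ∏ i ∈ s, μ (t i) = ∏ i ∈ s, μ (t' i) := by
      refine Finset.prod_congr rfl fun i hi => ?_
      simp only [ht'def, if_pos hi]
    rw [h3]
    refine Finset.prod_subset ?_ ?_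
    · intro i hi
      exact Finset.mem_range.mpr (hN i hi)
    · intro i _ hi
      simp only [ht'def, if_neg hi, measure_univ]
  have hm : MeasurableSet (Set.pi (range (N + 1) : Set ℕ) t') :=
    MeasurableSet.pi (Finset.countable_toSet _) fun i _ => ht' i
  have h3 : (fun z : ℝ × (ℕ → ℝ) => cons z.1 z.2) ⁻¹' (Set.pi (range (N + 1) : Set ℕ) t')
      = t' 0 ×ˢ Set.pi (range N : Set ℕ) (fun i => t' (i + 1)) := by
    ext ⟨x, ω⟩
    simp only [Set.mem_preimage, Set.mem_pi, Finset.mem_coe, Finset.mem_range, Set.mem_prod]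
    constructor
    · intro h
      exact ⟨h 0 (by omega), fun i hi => h (i + 1) (by omega)⟩
    · rintro ⟨h0, h⟩ i hi
      cases i with
      | zero => exact h0
      | succ i => exact h i (by omega)
  rw [h1, h2, Measure.map_apply measurable_cons hm, h3, Measure.prod_prod,
    Measure.infinitePi_pi _ (fun i _ => ht' (i + 1)), Finset.prod_range_succ', mul_comm]

/-- The process visits state 1 at time `z.1` for the `k`-th time. -/
def B (a : ℝ) : ℕ → Set (ℝ × (ℕ → ℝ))
  | 0 => {z | z.1 < z.2 0}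
  | (k + 1) => {z | z.2 0 + a ≤ z.1 ∧ (z.1 - z.2 0 - a, tail z.2) ∈ B a k}

theorem B_meas (a : ℝ) (k : ℕ) : MeasurableSet (B a k) := by
  have h0 : Measurable (fun z : ℝ × (ℕ → ℝ) => z.2 0) :=
    (measurable_pi_apply 0).comp measurable_snd
  induction k with
  | zero => exact measurableSet_lt measurable_fst h0
  | succ k ih =>
    have h1 : MeasurableSet {z : ℝ × (ℕ → ℝ) | z.2 0 + a ≤ z.1} :=
      measurableSet_le (h0.add_const a) measurable_fst
    have h2 : Measurable (fun z : ℝ × (ℕ → ℝ) => (z.1 - z.2 0 - a, tail z.2)) :=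
      ((measurable_fst.sub h0).sub_const a).prodMk (measurable_tail.comp measurable_snd)
    exact h1.inter (h2 ih)

/-- The event that the process is in state 1 at time `t`. -/
def R (a t : ℝ) : Set (ℕ → ℝ) := {ω | ∃ k, (t, ω) ∈ B a k}

theorem R_joint (a : ℝ) : MeasurableSet {z : ℝ × (ℕ → ℝ) | z.2 ∈ R a z.1} := by
  have : {z : ℝ × (ℕ → ℝ) | z.2 ∈ R a z.1} = ⋃ k, B a k := by
    ext z
    simp [R]
  rw [this]
  exact MeasurableSet.iUnion fun k => B_meas a k

theorem R_meas (a t : ℝ) : MeasurableSet (R a t) :=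
  (measurable_const.prodMk measurable_id : Measurable fun ω : ℕ → ℝ => (t, ω)) (R_joint a)

theorem cons_mem_R (a t x : ℝ) (ω : ℕ → ℝ) :
    cons x ω ∈ R a t ↔ t < x ∨ (x + a ≤ t ∧ ω ∈ R a (t - x - a)) := by
  constructor
  · rintro ⟨k, hk⟩
    cases k with
    | zero => exact Or.inl hk
    | succ k => exact Or.inr ⟨hk.1, k, hk.2⟩
  · rintro (h | ⟨h, k, hk⟩)
    · exact ⟨0, h⟩
    · exact ⟨k + 1, h, hk⟩

/-- The exponential law. -/
noncomputable def expo (lam : ℝ) : Measure ℝ := volume.withDensity (exponentialPDF lam)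

theorem expo_prob {lam : ℝ} (hl : 0 < lam) : IsProbabilityMeasure (expo lam) := by
  constructor
  rw [expo, withDensity_apply _ MeasurableSet.univ, Measure.restrict_univ]
  exact lintegral_exponentialPDF_eq_one hl

theorem measurable_pdf (lam : ℝ) : Measurable (exponentialPDF lam) := by
  unfold exponentialPDF
  exact (measurable_exponentialPDFReal lam).ennreal_ofReal

theorem expo_Iic {lam : ℝ} (hl : 0 < lam) : expo lam (Set.Iic 0) = 0 := by
  rw [expo, withDensity_apply _ measurableSet_Iic, lintegral_exponentialPDF_eq_antiDeriv hl]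
  simp

theorem expo_pos {lam : ℝ} (hl : 0 < lam) : ∀ᵐ x ∂(expo lam), 0 < x := by
  rw [ae_iff]
  have : {x : ℝ | ¬ 0 < x} = Set.Iic 0 := by ext x; simp
  rw [this]
  exact expo_Iic hl

theorem memoryless {lam : ℝ} (hl : 0 < lam) {s : ℝ} (hs : 0 ≤ s) {γ : ℝ → ℝ≥0∞}
    (hγ : Measurable γ) :
    ∫⁻ x in Set.Ioi s, γ (x - s) ∂(expo lam)
      = ENNReal.ofReal (Real.exp (-(lam * s))) * ∫⁻ x, γ x ∂(expo lam) := by
  have h1 : ∫⁻ x, γ x ∂(expo lam) = ∫⁻ x, (Set.Ioi (0 : ℝ)).indicator γ x ∂(expo lam) := by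
    refine lintegral_congr_ae ?_
    filter_upwards [expo_pos hl] with x hx
    rw [Set.indicator_of_mem (by exact hx)]
  have hm1 : Measurable ((Set.Ioi (0 : ℝ)).indicator γ) := hγ.indicator measurableSet_Ioi
  have hm2 : Measurable ((Set.Ioi s).indicator fun x => γ (x - s)) :=
    (hγ.comp (measurable_id.sub_const s)).indicator measurableSet_Ioi
  rw [h1, ← lintegral_indicator measurableSet_Ioi, expo,
    lintegral_withDensity_eq_lintegral_mul _ (measurable_pdf lam) hm1,
    lintegral_withDensity_eq_lintegral_mul _ (measurable_pdf lam) hm2,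
    ← lintegral_const_mul _ ((measurable_pdf lam).mul hm1),
    ← lintegral_add_right_eq_self _ s]
  refine lintegral_congr fun x => ?_
  simp only [Pi.mul_apply]
  by_cases hx : 0 < x
  · rw [Set.indicator_of_mem (by simpa using hx), Set.indicator_of_mem (by simpa using hx),
      exponentialPDF_of_nonneg (by linarith), exponentialPDF_of_nonneg hx.le, add_sub_cancel_right,
      ← mul_assoc, ← ENNReal.ofReal_mul (Real.exp_pos _).le]
    congr 2
    rw [mul_add, neg_add, Real.exp_add]
    ring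
  · rw [Set.indicator_of_notMem (by simpa using hx), Set.indicator_of_notMem (by simpa using hx)]
    simp

/-- The law of the sequence of holding times. -/
noncomputable def Q (lam : ℝ) : Measure (ℕ → ℝ) := Measure.infinitePi (fun _ : ℕ => expo lam)

theorem Q_prob {lam : ℝ} (hl : 0 < lam) : IsProbabilityMeasure (Q lam) := by
  have := expo_prob hl
  unfold Q
  infer_instance

theorem Q_apply {lam : ℝ} (hl : 0 < lam) {S : Set (ℕ → ℝ)} (hS : MeasurableSet S) :
    Q lam S = ∫⁻ x, Q lam {ω | cons x ω ∈ S} ∂(expo lam) := by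
  have := expo_prob hl
  have := Q_prob hl
  have h1 : Q lam S = (((expo lam).prod (Q lam)).map (fun z => cons z.1 z.2)) S := by
    unfold Q
    rw [map_cons]
  rw [h1, Measure.map_apply measurable_cons hS, Measure.prod_apply (measurable_cons hS)]
  rfl

variable {ι : Type*} [Fintype ι]

/-- The event of being in state 1 at time `s` and at all times `s + d i`. -/
def V (a : ℝ) (d : ι → ℝ) (s : ℝ) : Set (ℕ → ℝ) := R a s ∩ ⋂ i, R a (s + d i)

/-- The event of being in state 1 at all times `d i`. -/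
def G (a : ℝ) (d : ι → ℝ) : Set (ℕ → ℝ) := ⋂ i, R a (d i)

theorem G_meas (a : ℝ) (d : ι → ℝ) : MeasurableSet (G a d) :=
  MeasurableSet.iInter fun i => R_meas a (d i)

theorem V_joint (a : ℝ) (d : ι → ℝ) :
    MeasurableSet {z : ℝ × (ℕ → ℝ) | z.2 ∈ V a d z.1} := by
  have h1 : {z : ℝ × (ℕ → ℝ) | z.2 ∈ V a d z.1} = {z : ℝ × (ℕ → ℝ) | z.2 ∈ R a z.1}
      ∩ ⋂ i, (fun z : ℝ × (ℕ → ℝ) => (z.1 + d i, z.2)) ⁻¹'
        {z : ℝ × (ℕ → ℝ) | z.2 ∈ R a z.1} := by
    ext z
    simp [V]
  rw [h1]
  refine (R_joint a).inter (MeasurableSet.iInter fun i => ?_)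
  exact ((measurable_fst.add_const _).prodMk measurable_snd) (R_joint a)

theorem V_meas (a : ℝ) (d : ι → ℝ) (s : ℝ) : MeasurableSet (V a d s) :=
  (measurable_const.prodMk measurable_id : Measurable fun ω : ℕ → ℝ => (s, ω)) (V_joint a d)

theorem φ_meas {lam : ℝ} (hl : 0 < lam) (a : ℝ) (d : ι → ℝ) :
    Measurable fun s => Q lam (V a d s) := by
  have := Q_prob hl
  exact measurable_measure_prodMk_left (V_joint a d)

theorem γ_meas {lam : ℝ} (hl : 0 < lam) (a : ℝ) (d : ι → ℝ) :
    Measurable fun x => Q lam {ω | cons x ω ∈ G a d} := by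
  have := Q_prob hl
  exact measurable_measure_prodMk_left (measurable_cons (G_meas a d))

theorem cons_mem_V_of_lt {a : ℝ} (d : ι → ℝ) {s x : ℝ} (hx : s < x) (ω : ℕ → ℝ) :
    cons x ω ∈ V a d s ↔ cons (x - s) ω ∈ G a d := by
  simp only [V, G, Set.mem_inter_iff, Set.mem_iInter, cons_mem_R]
  constructor
  · rintro ⟨_, h⟩ i
    rcases h i with h1 | ⟨h1, h2⟩
    · left; linarith
    · right
      refine ⟨by linarith, ?_⟩
      have : d i - (x - s) - a = s + d i - x - a := by ring
      rwa [this]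
  · intro h
    refine ⟨Or.inl hx, fun i => ?_⟩
    rcases h i with h1 | ⟨h1, h2⟩
    · left; linarith
    · right
      refine ⟨by linarith, ?_⟩
      have : s + d i - x - a = d i - (x - s) - a := by ring
      rwa [this]

theorem cons_mem_V_of_le {a : ℝ} (d : ι → ℝ) (hd : ∀ i, 0 ≤ d i) {s x : ℝ} (hx : x ≤ s)
    (ω : ℕ → ℝ) : cons x ω ∈ V a d s ↔ x + a ≤ s ∧ ω ∈ V a d (s - x - a) := by
  simp only [V, Set.mem_inter_iff, Set.mem_iInter, cons_mem_R]
  constructor
  · rintro ⟨h0, h⟩
    rcases h0 with h0 | ⟨h0, h0'⟩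
    · exact absurd hx (not_le.mpr h0)
    · refine ⟨h0, h0', fun i => ?_⟩
      rcases h i with h1 | ⟨h1, h2⟩
      · have := hd i; linarith
      · have : s - x - a + d i = s + d i - x - a := by ring
        rwa [this]
  · rintro ⟨h0, h0', h⟩
    refine ⟨Or.inr ⟨h0, h0'⟩, fun i => Or.inr ⟨by have := hd i; linarith, ?_⟩⟩
    have : s + d i - x - a = s - x - a + d i := by ring
    rw [this]
    exact h i

theorem φ_rec {lam : ℝ} (hl : 0 < lam) {a : ℝ} (ha : 0 ≤ a) (d : ι → ℝ) (hd : ∀ i, 0 ≤ d i)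
    {s : ℝ} (hs : 0 ≤ s) :
    Q lam (V a d s) = ENNReal.ofReal (Real.exp (-(lam * s))) * Q lam (G a d)
      + ∫⁻ x in Set.Iic (s - a), Q lam (V a d (s - x - a)) ∂(expo lam) := by
  have := Q_prob hl
  rw [Q_apply hl (V_meas a d s), ← lintegral_add_compl _ (measurableSet_Ioi (a := s))]
  congr 1
  · have h1 : ∫⁻ x in Set.Ioi s, Q lam {ω | cons x ω ∈ V a d s} ∂(expo lam)
        = ∫⁻ x in Set.Ioi s, (fun y => Q lam {ω | cons y ω ∈ G a d}) (x - s) ∂(expo lam) := by
      refine setLIntegral_congr_fun measurableSet_Ioi fun x hx => ?_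
      simp only
      congr 1
      ext ω
      exact cons_mem_V_of_lt d hx ω
    rw [h1, memoryless hl hs (γ_meas hl a d), Q_apply hl (G_meas a d)]
  · rw [Set.compl_Ioi]
    have h1 : ∫⁻ x in Set.Iic s, Q lam {ω | cons x ω ∈ V a d s} ∂(expo lam)
        = ∫⁻ x in Set.Iic s, (Set.Iic (s - a)).indicator
            (fun x => Q lam (V a d (s - x - a))) x ∂(expo lam) := by
      refine setLIntegral_congr_fun measurableSet_Iic fun x hx => ?_
      by_cases hxa : x ∈ Set.Iic (s - a)
      · rw [Set.indicator_of_mem hxa]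
        congr 1
        ext ω
        rw [Set.mem_setOf_eq, cons_mem_V_of_le d hd hx ω]
        rw [Set.mem_Iic] at hxa
        exact and_iff_right (by linarith)
      · rw [Set.indicator_of_notMem hxa]
        have : {ω | cons x ω ∈ V a d s} = ∅ := by
          ext ω
          rw [Set.mem_setOf_eq, cons_mem_V_of_le d hd hx ω]
          rw [Set.mem_Iic] at hxa
          simp only [Set.mem_empty_iff_false, iff_false, not_and]
          intro h
          exact absurd (by linarith) hxa
        rw [this, measure_empty]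
    rw [h1, setLIntegral_indicator measurableSet_Iic]
    congr 2
    ext x
    simp only [Set.mem_inter_iff, Set.mem_Iic]
    constructor
    · exact fun h => h.1
    · exact fun h => ⟨h, by linarith⟩

theorem V_empty (a s : ℝ) (d : Empty → ℝ) : V a d s = R a s := by
  simp [V]

theorem G_empty (a : ℝ) (d : Empty → ℝ) : G a d = Set.univ := by
  simp [G]

theorem ψ_rec {lam : ℝ} (hl : 0 < lam) {a : ℝ} (ha : 0 ≤ a) {s : ℝ} (hs : 0 ≤ s) :
    Q lam (R a s) = ENNReal.ofReal (Real.exp (-(lam * s)))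
      + ∫⁻ x in Set.Iic (s - a), Q lam (R a (s - x - a)) ∂(expo lam) := by
  have := Q_prob hl
  have h := φ_rec hl ha (fun e : Empty => e.elim) (fun e => e.elim) hs
  simp only [V_empty, G_empty, measure_univ, mul_one] at h
  exact h

theorem ψ_meas {lam : ℝ} (hl : 0 < lam) (a : ℝ) : Measurable fun s => Q lam (R a s) := by
  have h := φ_meas hl a (fun e : Empty => e.elim)
  simpa only [V_empty] using h

/-- Regeneration. -/
theorem φ_eq {lam : ℝ} (hl : 0 < lam) {a : ℝ} (ha : 0 < a) (d : ι → ℝ) (hd : ∀ i, 0 ≤ d i)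
    (N : ℕ) : ∀ s : ℝ, 0 ≤ s → s < N * a → Q lam (V a d s) = Q lam (R a s) * Q lam (G a d) := by
  induction N with
  | zero =>
    intro s h0 h1
    simp at h1
    linarith
  | succ N ih =>
    intro s h0 h1
    rw [φ_rec hl ha.le d hd h0, ψ_rec hl ha.le h0, add_mul]
    congr 1
    have hm : Measurable fun x : ℝ => Q lam (R a (s - x - a)) :=
      (ψ_meas hl a).comp ((measurable_const.sub measurable_id).sub_const a)
    rw [← lintegral_mul_const _ hm]
    refine setLIntegral_congr_fun_ae measurableSet_Iic ?_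
    filter_upwards [expo_pos hl] with x hx hxs
    rw [Set.mem_Iic] at hxs
    refine ih (s - x - a) (by linarith) ?_
    push_cast at h1
    linarith

theorem φ_eq' {lam : ℝ} (hl : 0 < lam) {a : ℝ} (ha : 0 < a) (d : ι → ℝ) (hd : ∀ i, 0 ≤ d i)
    {s : ℝ} (hs : 0 ≤ s) : Q lam (V a d s) = Q lam (R a s) * Q lam (G a d) := by
  obtain ⟨N, hN⟩ := exists_nat_gt (s / a)
  refine φ_eq hl ha d hd N s hs ?_
  rwa [div_lt_iff₀ ha] at hN

/-- For times up to `a` nothing but the first holding time matters. -/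
theorem ψ_small {lam : ℝ} (hl : 0 < lam) {a : ℝ} (ha : 0 ≤ a) {s : ℝ} (hs : 0 ≤ s) (hsa : s ≤ a) :
    Q lam (R a s) = ENNReal.ofReal (Real.exp (-(lam * s))) := by
  rw [ψ_rec hl ha hs]
  have h1 : ∫⁻ x in Set.Iic (s - a), Q lam (R a (s - x - a)) ∂(expo lam) = 0 := by
    refine setLIntegral_measure_zero _ _ ?_
    refine measure_mono_null ?_ (expo_Iic hl)
    intro x hx
    rw [Set.mem_Iic] at *
    linarith
  rw [h1, add_zero]

theorem ψ_next {lam : ℝ} (hl : 0 < lam) {a : ℝ} (ha : 0 ≤ a) {s : ℝ} (has : a ≤ s)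
    (hsa : s ≤ 2 * a) :
    Q lam (R a s) = ENNReal.ofReal (Real.exp (-(lam * s))
      + lam * (s - a) * Real.exp (-(lam * (s - a)))) := by
  rw [ψ_rec hl ha (ha.trans has)]
  have h1 : ∫⁻ x in Set.Iic (s - a), Q lam (R a (s - x - a)) ∂(expo lam)
      = ENNReal.ofReal (lam * (s - a) * Real.exp (-(lam * (s - a)))) := by
    have h2 : ∫⁻ x in Set.Iic (s - a), Q lam (R a (s - x - a)) ∂(expo lam)
        = ∫⁻ x, (Set.Icc 0 (s - a)).indicator
          (fun x => ENNReal.ofReal (Real.exp (-(lam * (s - x - a))))) x ∂(expo lam) := by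
      rw [← lintegral_indicator measurableSet_Iic]
      refine lintegral_congr_ae ?_
      filter_upwards [expo_pos hl] with x hx
      by_cases hxs : x ≤ s - a
      · rw [Set.indicator_of_mem (by exact hxs), Set.indicator_of_mem (by exact ⟨hx.le, hxs⟩)]
        exact ψ_small hl ha (by linarith) (by linarith)
      · rw [Set.indicator_of_notMem (by exact hxs), Set.indicator_of_notMem]
        intro h
        exact hxs h.2
    rw [h2]
    have hm : Measurable ((Set.Icc 0 (s - a)).indicator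
          (fun x => ENNReal.ofReal (Real.exp (-(lam * (s - x - a)))))) := by
      refine Measurable.indicator ?_ measurableSet_Icc
      fun_prop
    rw [expo, lintegral_withDensity_eq_lintegral_mul _ (measurable_pdf lam) hm]
    have h3 : ∀ x, (exponentialPDF lam * ((Set.Icc 0 (s - a)).indicator
          (fun x => ENNReal.ofReal (Real.exp (-(lam * (s - x - a))))))) x
        = (Set.Icc 0 (s - a)).indicator
          (fun _ => ENNReal.ofReal (lam * Real.exp (-(lam * (s - a))))) x := by
      intro x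
      rw [Pi.mul_apply]
      by_cases hx : x ∈ Set.Icc 0 (s - a)
      · rw [Set.indicator_of_mem hx, Set.indicator_of_mem hx, exponentialPDF_of_nonneg hx.1,
          ← ENNReal.ofReal_mul (by positivity), mul_assoc, ← Real.exp_add]
        congr 3
        ring
      · rw [Set.indicator_of_notMem hx, Set.indicator_of_notMem hx, mul_zero]
    rw [lintegral_congr h3, lintegral_indicator measurableSet_Icc, setLIntegral_const,
      Real.volume_Icc, ← ENNReal.ofReal_mul (by positivity)]
    congr 1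
    ring
  rw [h1, ENNReal.ofReal_add (Real.exp_pos _).le]
  have : 0 ≤ s - a := by linarith
  positivity

/-- The one-atom p-function. -/
noncomputable def oneAtom (lam a : ℝ) (t : ℝ≥0) : ℝ := (Q lam).real (R a t)

theorem oneAtom_small {lam : ℝ} (hl : 0 < lam) {a : ℝ} (ha : 0 ≤ a) {t : ℝ≥0} (hta : (t : ℝ) ≤ a) :
    oneAtom lam a t = Real.exp (-(lam * t)) := by
  unfold oneAtom Measure.real
  rw [ψ_small hl ha (NNReal.coe_nonneg t) hta, ENNReal.toReal_ofReal (Real.exp_pos _).le]

theorem oneAtom_next {lam : ℝ} (hl : 0 < lam) {a : ℝ} (ha : 0 ≤ a) {t : ℝ≥0} (hta : a ≤ (t : ℝ))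
    (hta2 : (t : ℝ) ≤ 2 * a) :
    oneAtom lam a t = Real.exp (-(lam * t)) + lam * (t - a) * Real.exp (-(lam * (t - a))) := by
  unfold oneAtom Measure.real
  rw [ψ_next hl ha hta hta2, ENNReal.toReal_ofReal]
  have : 0 ≤ (t : ℝ) - a := by linarith
  positivity

theorem oneAtom_standard {lam : ℝ} (hl : 0 < lam) {a : ℝ} (ha : 0 < a) :
    IsStandardPFunction (oneAtom lam a) := by
  have hQ := Q_prob hl
  refine ⟨⟨?_, ℕ → ℝ, inferInstance, Q lam, fun t => R a t, hQ, fun t => R_meas a t,
    fun t => rfl, ?_⟩, ?_⟩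
  · rw [oneAtom_small hl ha.le (by simpa using ha.le)]
    simp
  · intro n t ht
    have h1 : ⋂ i, R a (t i : ℝ)
        = V a (fun i : Fin n => ((t i.succ - t 0 : ℝ≥0) : ℝ)) (t 0) := by
      ext ω
      simp only [V, Set.mem_iInter, Set.mem_inter_iff, Fin.forall_fin_succ]
      refine and_congr_right fun _ => forall_congr' fun i => ?_
      have h2 : t 0 ≤ t i.succ := ht (Fin.zero_le _)
      rw [NNReal.coe_sub h2, add_sub_cancel]
    have h3 : ⋂ i : Fin n, R a ((t i.succ - t 0 : ℝ≥0) : ℝ)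
        = G a (fun i : Fin n => ((t i.succ - t 0 : ℝ≥0) : ℝ)) := rfl
    rw [h1, h3]
    unfold oneAtom Measure.real
    rw [φ_eq' hl ha _ (fun i => NNReal.coe_nonneg _) (NNReal.coe_nonneg _), ENNReal.toReal_mul]
  · have h1 : Tendsto (fun t : ℝ≥0 => Real.exp (-(lam * (t : ℝ)))) (𝓝[>] 0) (𝓝 1) := by
      have h2 : Tendsto (fun t : ℝ≥0 => Real.exp (-(lam * (t : ℝ)))) (𝓝 0)
          (𝓝 (Real.exp (-(lam * ((0 : ℝ≥0) : ℝ))))) := by
        apply Continuous.tendsto
        fun_prop
      simp only [NNReal.coe_zero, mul_zero, neg_zero, Real.exp_zero] at h2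
      exact h2.mono_left nhdsWithin_le_nhds
    refine h1.congr' ?_
    have h3 : ∀ᶠ t : ℝ≥0 in 𝓝 0, t < ⟨a, ha.le⟩ := by
      apply gt_mem_nhds
      exact_mod_cast ha
    filter_upwards [h3.filter_mono nhdsWithin_le_nhds] with t ht
    have : (t : ℝ) < a := ht
    rw [oneAtom_small hl ha.le this.le]

end Pool.Agent.W2helper79.PF
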