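import Mathlib

/-!
# Standard p-functions and Davidson's function `I`
-/

open MeasureTheory Filter Topology
open scoped NNReal

namespace Pool.Agent.W2helper79.PF

/-- `p : [0,∞) → ℝ` is a p-function: `p 0 = 1`, and there are a probability space `(Ω, P)` and
measurable events `E t` (`t ≥ 0`) with `P (E t) = p t` such that, for all `n` and all
`t 0 ≤ t 1 ≤ ... ≤ t n`,
`P (E (t 0) ∩ ... ∩ E (t n)) = p (t 0) * P (E (t 1 - t 0) ∩ ... ∩ E (t n - t 0))`. -/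
def IsPFunction (p : ℝ≥0 → ℝ) : Prop :=
  p 0 = 1 ∧ ∃ (Ω : Type) (_ : MeasurableSpace Ω) (P : Measure Ω) (E : ℝ≥0 → Set Ω),
    IsProbabilityMeasure P ∧ (∀ t, MeasurableSet (E t)) ∧ (∀ t, P.real (E t) = p t) ∧
    ∀ (n : ℕ) (t : Fin (n + 1) → ℝ≥0), Monotone t →
      P.real (⋂ i, E (t i)) = p (t 0) * P.real (⋂ i : Fin n, E (t i.succ - t 0))

/-- A p-function is standard if `p t → 1` as `t → 0+`. -/
def IsStandardPFunction (p : ℝ≥0 → ℝ) : Prop :=
  IsPFunction p ∧ Tendsto p (𝓝[>] 0) (𝓝 1)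

/-- `m(M;p)`: the infimum of `p` over `[0,1]`. -/
noncomputable def lowest (p : ℝ≥0 → ℝ) : ℝ := sInf (p '' Set.Icc 0 1)

/-- `I(M)`: the infimum of `m(M;p)` over all standard p-functions `p` with `p 1 = M`. -/
noncomputable def I (M : ℝ) : ℝ :=
  sInf {x : ℝ | ∃ p : ℝ≥0 → ℝ, IsStandardPFunction p ∧ p 1 = M ∧ lowest p = x}

/-- The threshold `c = inf {M : I(M) > 0}`, where `M` runs over `(0,1]`. -/
noncomputable def threshold : ℝ := sInf {M : ℝ | 0 < M ∧ M ≤ 1 ∧ 0 < I M}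

end Pool.Agent.W2helper79.PF
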