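import Pool.Agent.W2helper79.PF.Lower
import Pool.Agent.W2helper79.PF.Construct

/-!
# Davidson's function `I`
-/

open MeasureTheory Filter Topology
open scoped NNReal

namespace Pool.Agent.W2helper79.PF

theorem bddBelow_image {p : ℝ≥0 → ℝ} (hp : IsPFunction p) : BddBelow (p '' Set.Icc 0 1) := by
  refine ⟨0, ?_⟩
  rintro _ ⟨t, _, rfl⟩
  exact pfun_nonneg hp t

theorem lowest_nonneg {p : ℝ≥0 → ℝ} (hp : IsPFunction p) : 0 ≤ lowest p := by
  refine le_csInf ⟨p 0, 0, ⟨le_rfl, zero_le_one⟩, rfl⟩ ?_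
  rintro _ ⟨t, _, rfl⟩
  exact pfun_nonneg hp t

theorem lowest_le {p : ℝ≥0 → ℝ} (hp : IsPFunction p) {t : ℝ≥0} (ht : t ≤ 1) :
    lowest p ≤ p t :=
  csInf_le (bddBelow_image hp) ⟨t, ⟨zero_le, ht⟩, rfl⟩

/-- The lower bound for the lowest value. -/
theorem le_lowest {p : ℝ≥0 → ℝ} (hp : IsStandardPFunction p) (h1 : 0 < p 1) :
    1 + Real.log (p 1) ≤ lowest p := by
  refine le_csInf ⟨p 0, 0, ⟨le_rfl, zero_le_one⟩, rfl⟩ ?_
  rintro _ ⟨t, ht, rfl⟩
  have h2 := pfun_ineq hp ht.2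
  have h3 := Real.log_le_log h1 h2
  rw [Real.log_exp] at h3
  linarith

/-- The one-atom p-function with prescribed value `M` at `1` and a value `r` before. -/
theorem exists_pfun {M r : ℝ} (hr0 : 0 < r) (hr1 : r < 1) (hrM : r ≤ M)
    (hM : M ≤ Real.exp (r - 1)) :
    ∃ p : ℝ≥0 → ℝ, IsStandardPFunction p ∧ p 1 = M ∧ ∃ t : ℝ≥0, t ≤ 1 ∧ p t = r := by
  have hcont : ContinuousOn (fun x : ℝ => Real.exp (-x) * (x + r)) (Set.Icc 0 (1 - r)) := by
    apply Continuous.continuousOn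
    fun_prop
  have hmem : M ∈ Set.Icc (Real.exp (-(0 : ℝ)) * (0 + r))
      (Real.exp (-(1 - r)) * ((1 - r) + r)) := by
    constructor
    · simpa using hrM
    · have : Real.exp (-(1 - r)) * ((1 - r) + r) = Real.exp (r - 1) := by
        rw [sub_add_cancel, mul_one, neg_sub]
      rw [this]
      exact hM
  obtain ⟨x, ⟨hx0, hx1⟩, hx⟩ := intermediate_value_Icc (by linarith : (0 : ℝ) ≤ 1 - r) hcont hmem
  simp only at hx
  set y := -Real.log r with hy
  have hy1 : 1 - r ≤ y := by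
    have := Real.log_le_sub_one_of_pos hr0
    linarith
  have hy0 : 0 < y := by linarith
  have hxy : x ≤ y := hx1.trans hy1
  have hl : 0 < x + y := by linarith
  have ha0 : 0 < y / (x + y) := div_pos hy0 hl
  have ha1 : y / (x + y) ≤ 1 := by
    rw [div_le_one hl]; linarith
  have ha2 : 1 ≤ 2 * (y / (x + y)) := by
    rw [← mul_div_assoc, le_div_iff₀ hl]; linarith
  have hla : (x + y) * (y / (x + y)) = y := mul_div_cancel₀ _ hl.ne'
  refine ⟨oneAtom (x + y) (y / (x + y)), oneAtom_standard hl ha0, ?_,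
    Real.toNNReal (y / (x + y)), ?_, ?_⟩
  · rw [oneAtom_next hl ha0.le (by simpa using ha1) (by simpa using ha2)]
    have h1 : (x + y) * (((1 : ℝ≥0) : ℝ) - y / (x + y)) = x := by
      rw [NNReal.coe_one, mul_sub, hla]; ring
    rw [h1, NNReal.coe_one, mul_one, ← hx, neg_add, Real.exp_add]
    have h2 : Real.exp (-y) = r := by
      rw [hy, neg_neg, Real.exp_log hr0]
    rw [h2]
    ring
  · rw [← NNReal.coe_le_coe, Real.coe_toNNReal _ ha0.le]
    exact ha1
  · rw [oneAtom_small hl ha0.le (by rw [Real.coe_toNNReal _ ha0.le]), Real.coe_toNNReal _ ha0.le,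
      hla, hy, neg_neg, Real.exp_log hr0]

/-- The constant p-function. -/
theorem one_standard : IsStandardPFunction (fun _ => (1 : ℝ)) := by
  refine ⟨⟨rfl, Unit, inferInstance, Measure.dirac (), fun _ => Set.univ, inferInstance,
    fun _ => MeasurableSet.univ, fun _ => by simp, ?_⟩, tendsto_const_nhds⟩
  intro n t _
  simp

theorem lowest_one : lowest (fun _ => (1 : ℝ)) = 1 := by
  unfold lowest
  have : (fun _ : ℝ≥0 => (1 : ℝ)) '' Set.Icc 0 1 = {1} := by
    ext x
    simp only [Set.mem_image, Set.mem_Icc, Set.mem_singleton_iff]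
    constructor
    · rintro ⟨_, _, h⟩; exact h.symm
    · rintro rfl; exact ⟨0, ⟨le_rfl, zero_le_one⟩, rfl⟩
  rw [this, csInf_singleton]

theorem I_bdd (M : ℝ) :
    BddBelow {x : ℝ | ∃ p : ℝ≥0 → ℝ, IsStandardPFunction p ∧ p 1 = M ∧ lowest p = x} := by
  refine ⟨0, ?_⟩
  rintro _ ⟨p, hp, _, rfl⟩
  exact lowest_nonneg hp.1

theorem I_le {p : ℝ≥0 → ℝ} (hp : IsStandardPFunction p) : I (p 1) ≤ lowest p :=
  csInf_le (I_bdd _) ⟨p, hp, rfl, rfl⟩

theorem I_le_of {M r : ℝ} (hr0 : 0 < r) (hr1 : r < 1) (hrM : r ≤ M)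
    (hM : M ≤ Real.exp (r - 1)) : I M ≤ r := by
  obtain ⟨p, hp, hp1, t, ht, hpt⟩ := exists_pfun hr0 hr1 hrM hM
  rw [← hp1, ← hpt]
  exact (I_le hp).trans (lowest_le hp.1 ht)

theorem exists_M {M : ℝ} (h0 : 0 < M) (h1 : M ≤ 1) :
    ∃ p : ℝ≥0 → ℝ, IsStandardPFunction p ∧ p 1 = M := by
  rcases h1.lt_or_eq with h1 | h1
  · obtain ⟨p, hp, hp1, _⟩ := exists_pfun h0 h1 le_rfl
      (by have := Real.add_one_le_exp (M - 1); linarith)
    exact ⟨p, hp, hp1⟩
  · exact ⟨_, one_standard, h1.symm⟩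

theorem le_I {M : ℝ} (h0 : 0 < M) (h1 : M ≤ 1) : max 0 (1 + Real.log M) ≤ I M := by
  obtain ⟨p, hp, hp1⟩ := exists_M h0 h1
  refine le_csInf ⟨_, p, hp, hp1, rfl⟩ ?_
  rintro _ ⟨q, hq, hq1, rfl⟩
  refine max_le (lowest_nonneg hq.1) ?_
  rw [← hq1]
  exact le_lowest hq (by rw [hq1]; exact h0)

theorem I_eq {M : ℝ} (h0 : 0 < M) (h1 : M ≤ 1) : I M = max 0 (1 + Real.log M) := by
  refine le_antisymm ?_ (le_I h0 h1)
  rcases h1.lt_or_eq with h1 | h1
  · rcases lt_or_ge (Real.exp (-1)) M with hM | hM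
    · refine le_trans ?_ (le_max_right _ _)
      have hlog : -1 < Real.log M := by
        rwa [Real.lt_log_iff_exp_lt h0]
      have hlog0 : Real.log M < 0 := Real.log_neg h0 h1
      refine I_le_of (by linarith) (by linarith) ?_ ?_
      · have := Real.log_le_sub_one_of_pos h0
        linarith
      · have : 1 + Real.log M - 1 = Real.log M := by ring
        rw [this, Real.exp_log h0]
    · refine le_trans ?_ (le_max_left _ _)
      refine le_of_forall_pos_le_add fun ε hε => ?_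
      rw [zero_add]
      have hr0 : 0 < min ε M := lt_min hε h0
      refine (I_le_of hr0 ((min_le_right _ _).trans_lt h1) (min_le_right _ _) ?_).trans
        (min_le_left _ _)
      refine hM.trans (Real.exp_le_exp.mpr ?_)
      linarith
  · have h2 := I_le one_standard
    rw [lowest_one] at h2
    rw [h1, Real.log_one, add_zero]
    exact h2.trans (le_max_right _ _)

theorem threshold_eq : threshold = Real.exp (-1) := by
  unfold threshold
  have hlt : Real.exp (-1) < 1 := by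
    rw [Real.exp_lt_one_iff]; norm_num
  have : {M : ℝ | 0 < M ∧ M ≤ 1 ∧ 0 < I M} = Set.Ioc (Real.exp (-1)) 1 := by
    ext M
    constructor
    · rintro ⟨h0, h1, h2⟩
      rw [I_eq h0 h1] at h2
      refine ⟨?_, h1⟩
      rcases lt_max_iff.mp h2 with h3 | h3
      · exact absurd h3 (lt_irrefl _)
      · rw [← Real.lt_log_iff_exp_lt h0]
        linarith
    · rintro ⟨h0, h1⟩
      have h2 : 0 < M := (Real.exp_pos _).trans h0
      refine ⟨h2, h1, ?_⟩
      rw [I_eq h2 h1]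
      rw [← Real.lt_log_iff_exp_lt h2] at h0
      exact lt_max_of_lt_right (by linarith)
  rw [this, csInf_Ioc hlt]

end Pool.Agent.W2helper79.PF
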