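import Pool.Agent.W2helper79.PF.Claim
import Pool.Agent.W2helper79.PF.Def

/-!
# The inequality `p s ≤ exp (p t - 1)` for standard p-functions
-/

open MeasureTheory Filter Topology Finset
open scoped NNReal

namespace Pool.Agent.W2helper79.PF

variable {Ω : Type*} [MeasurableSpace Ω]

/-- Regenerative events. -/
structure Regen (P : Measure Ω) (E : ℝ≥0 → Set Ω) : Prop where
  meas : ∀ t, MeasurableSet (E t)
  one : P.real (E 0) = 1
  reg : ∀ (n : ℕ) (t : Fin (n + 1) → ℝ≥0), Monotone t →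
      P.real (⋂ i, E (t i)) = P.real (E (t 0)) * P.real (⋂ i : Fin n, E (t i.succ - t 0))

variable {P : Measure Ω} [IsProbabilityMeasure P] {E : ℝ≥0 → Set Ω}

theorem mono_snoc {n : ℕ} (t : Fin (n + 1) → ℝ≥0) (ht : Monotone t) (s : ℝ≥0)
    (hs : t (Fin.last n) ≤ s) : Monotone (Fin.snoc (α := fun _ => ℝ≥0) t s) := by
  intro i j hij
  induction j using Fin.lastCases with
  | last =>
    rw [Fin.snoc_last]
    induction i using Fin.lastCases with
    | last => rw [Fin.snoc_last]
    | cast i =>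
      rw [Fin.snoc_castSucc]
      exact (ht (Fin.le_last i)).trans hs
  | cast j =>
    rw [Fin.snoc_castSucc]
    induction i using Fin.lastCases with
    | last =>
      exfalso
      have := lt_of_lt_of_le (Fin.castSucc_lt_last j) hij
      exact lt_irrefl _ this
    | cast i =>
      rw [Fin.snoc_castSucc]
      exact ht (Fin.castSucc_le_castSucc_iff.mp hij)

theorem iInter_snoc {n : ℕ} (t : Fin n → ℝ≥0) (s : ℝ≥0) :
    ⋂ i, E (Fin.snoc (α := fun _ => ℝ≥0) t s i) = (⋂ i, E (t i)) ∩ E s := by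
  ext ω
  simp only [Set.mem_iInter, Set.mem_inter_iff, Fin.forall_fin_succ', Fin.snoc_castSucc,
    Fin.snoc_last]

theorem snoc_reg (H : Regen P E) (n : ℕ) : ∀ (t : Fin (n + 1) → ℝ≥0), Monotone t →
    ∀ s, t (Fin.last n) ≤ s →
      P.real ((⋂ i, E (t i)) ∩ E s) = P.real (⋂ i, E (t i)) * P.real (E (s - t (Fin.last n))) := by
  induction n with
  | zero =>
    intro t ht s hs
    have h1 := H.reg 1 (Fin.snoc (α := fun _ => ℝ≥0) t s) (mono_snoc t ht s hs)
    rw [iInter_snoc] at h1
    rw [h1]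
    have h2 : Fin.snoc (α := fun _ => ℝ≥0) t s 0 = t 0 := by
      have : (0 : Fin 2) = Fin.castSucc 0 := rfl
      rw [this, Fin.snoc_castSucc]
    have h3 : ⋂ i : Fin 1, E (Fin.snoc (α := fun _ => ℝ≥0) t s i.succ
        - Fin.snoc (α := fun _ => ℝ≥0) t s 0) = E (s - t (Fin.last 0)) := by
      rw [h2]
      ext ω
      simp only [Set.mem_iInter, Fin.forall_fin_one]
      have : (0 : Fin 1).succ = Fin.last 1 := rfl
      rw [this, Fin.snoc_last]
      rfl
    have h4 : ⋂ i : Fin 1, E (t i) = E (t 0) := by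
      ext ω
      simp
    rw [h3, h2, h4]
  | succ k ih =>
    intro t ht s hs
    have h1 := H.reg (k + 2) (Fin.snoc (α := fun _ => ℝ≥0) t s) (mono_snoc t ht s hs)
    rw [iInter_snoc] at h1
    rw [h1]
    have h2 : Fin.snoc (α := fun _ => ℝ≥0) t s 0 = t 0 := by
      have : (0 : Fin (k + 3)) = Fin.castSucc 0 := rfl
      rw [this, Fin.snoc_castSucc]
    have h3 : ⋂ i : Fin (k + 2), E (Fin.snoc (α := fun _ => ℝ≥0) t s i.succ
        - Fin.snoc (α := fun _ => ℝ≥0) t s 0)
        = (⋂ i : Fin (k + 1), E (t i.succ - t 0)) ∩ E (s - t 0) := by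
      rw [h2]
      ext ω
      simp only [Set.mem_iInter, Set.mem_inter_iff, Fin.forall_fin_succ', Fin.succ_castSucc,
        Fin.snoc_castSucc, Fin.succ_last, Fin.snoc_last]
    rw [h3, h2]
    have h4 := ih (fun i => t i.succ - t 0)
      (fun i j hij => tsub_le_tsub_right (ht (Fin.succ_le_succ_iff.mpr hij)) _) (s - t 0)
      (tsub_le_tsub_right hs _)
    rw [h4, H.reg (k + 1) t ht, Fin.succ_last, ← mul_assoc,
      tsub_tsub_tsub_cancel_right (ht (Fin.zero_le _))]

/-- The lattice events. -/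
def D (E : ℝ≥0 → Set Ω) (h : ℝ≥0) (n : ℕ) : Set Ω := E (n * h)

theorem D_meas (H : Regen P E) (h : ℝ≥0) (n : ℕ) : MeasurableSet (D E h n) := H.meas _

theorem lattice_reg (H : Regen P E) (h : ℝ≥0) (S : Finset ℕ) (m r : ℕ) (hS : ∀ i ∈ S, i ≤ m) :
    P.real (((⋂ i ∈ S, D E h i) ∩ D E h m) ∩ D E h (m + r))
      = P.real ((⋂ i ∈ S, D E h i) ∩ D E h m) * P.real (D E h r) := by
  classical
  have hne : (insert m S).Nonempty := ⟨m, Finset.mem_insert_self _ _⟩
  obtain ⟨n, hn⟩ : ∃ n, (insert m S).card = n + 1 :=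
    ⟨(insert m S).card - 1, by have := Finset.card_pos.mpr hne; omega⟩
  set e := (insert m S).orderEmbOfFin hn with he
  set t : Fin (n + 1) → ℝ≥0 := fun i => (e i : ℝ≥0) * h with ht
  have htm : Monotone t := by
    intro i j hij
    simp only [ht]
    have : e i ≤ e j := e.monotone hij
    gcongr
  have hlast : e (Fin.last n) = m := by
    have h1 : e (Fin.last n) ∈ insert m S := Finset.orderEmbOfFin_mem _ hn _
    have h2 : e (Fin.last n) ≤ m := by
      rcases Finset.mem_insert.mp h1 with h3 | h3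
      · exact h3.le
      · exact hS _ h3
    have h3 : m ∈ Set.range e := by
      rw [he, Finset.range_orderEmbOfFin]
      exact_mod_cast Finset.mem_insert_self m S
    obtain ⟨i, hi⟩ := h3
    have h4 : e i ≤ e (Fin.last n) := e.monotone (Fin.le_last i)
    omega
  have hInter : ⋂ i, E (t i) = (⋂ i ∈ S, D E h i) ∩ D E h m := by
    ext ω
    simp only [Set.mem_iInter, Set.mem_inter_iff]
    constructor
    · intro hω
      have key : ∀ j ∈ insert m S, ω ∈ D E h j := by
        intro j hj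
        have h3 : j ∈ Set.range e := by
          rw [he, Finset.range_orderEmbOfFin]
          exact_mod_cast hj
        obtain ⟨i, hi⟩ := h3
        have := hω i
        simp only [ht, hi] at this
        exact this
      exact ⟨fun i hi => key i (Finset.mem_insert_of_mem hi), key m (Finset.mem_insert_self _ _)⟩
    · rintro ⟨h1, h2⟩ i
      have h3 : e i ∈ insert m S := Finset.orderEmbOfFin_mem _ hn _
      rcases Finset.mem_insert.mp h3 with h4 | h4
      · simp only [ht, h4]
        exact h2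
      · exact h1 _ h4
  have h5 := snoc_reg H n t htm (((m + r : ℕ) : ℝ≥0) * h) (by
    simp only [ht, hlast]
    gcongr
    omega)
  rw [hInter] at h5
  have h6 : ((m + r : ℕ) : ℝ≥0) * h - t (Fin.last n) = (r : ℝ≥0) * h := by
    simp only [ht, hlast]
    rw [Nat.cast_add, add_mul, add_tsub_cancel_left]
  rw [h6] at h5
  exact h5

theorem comp_reg (H : Regen P E) (h : ℝ≥0) (T : Finset ℕ) : ∀ (S : Finset ℕ) (m r : ℕ),
    (∀ i ∈ T, i ≤ m) → (∀ i ∈ S, i ≤ m) →
    P.real ((⋂ i ∈ T, (D E h i)ᶜ) ∩ (((⋂ i ∈ S, D E h i) ∩ D E h m) ∩ D E h (m + r)))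
      = P.real ((⋂ i ∈ T, (D E h i)ᶜ) ∩ ((⋂ i ∈ S, D E h i) ∩ D E h m)) * P.real (D E h r) := by
  classical
  induction T using Finset.induction_on with
  | empty =>
    intro S m r _ hS
    simpa using lattice_reg H h S m r hS
  | insert a T ha ih =>
    intro S m r hT hS
    have h1 := ih S m r (fun i hi => hT i (Finset.mem_insert_of_mem hi)) hS
    have h2 := ih (insert a S) m r (fun i hi => hT i (Finset.mem_insert_of_mem hi)) (by
      intro i hi
      rcases Finset.mem_insert.mp hi with h3 | h3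
      · rw [h3]; exact hT a (Finset.mem_insert_self _ _)
      · exact hS i h3)
    have hDa := D_meas H h a
    have key : ∀ Y : Set Ω, P.real ((⋂ i ∈ insert a T, (D E h i)ᶜ) ∩ Y)
        = P.real ((⋂ i ∈ T, (D E h i)ᶜ) ∩ Y)
          - P.real ((⋂ i ∈ T, (D E h i)ᶜ) ∩ (D E h a ∩ Y)) := by
      intro Y
      have h3 : ((⋂ i ∈ T, (D E h i)ᶜ) ∩ Y) ∩ D E h a
          = (⋂ i ∈ T, (D E h i)ᶜ) ∩ (D E h a ∩ Y) := by
        ext ω; simp only [Set.mem_inter_iff]; tauto
      have h4 : ((⋂ i ∈ T, (D E h i)ᶜ) ∩ Y) \ D E h a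
          = (⋂ i ∈ insert a T, (D E h i)ᶜ) ∩ Y := by
        rw [Finset.set_biInter_insert]
        ext ω; simp only [Set.mem_inter_iff, Set.mem_sdiff, Set.mem_compl_iff]; tauto
      have h5 := measureReal_inter_add_sdiff (μ := P) (s := (⋂ i ∈ T, (D E h i)ᶜ) ∩ Y) hDa
      rw [h3, h4] at h5
      linarith
    rw [key, key, h1]
    have h6 : D E h a ∩ (((⋂ i ∈ S, D E h i) ∩ D E h m) ∩ D E h (m + r))
        = ((⋂ i ∈ insert a S, D E h i) ∩ D E h m) ∩ D E h (m + r) := by
      rw [Finset.set_biInter_insert]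
      ext ω; simp only [Set.mem_inter_iff]; tauto
    have h7 : D E h a ∩ ((⋂ i ∈ S, D E h i) ∩ D E h m)
        = (⋂ i ∈ insert a S, D E h i) ∩ D E h m := by
      rw [Finset.set_biInter_insert]
      ext ω; simp only [Set.mem_inter_iff]; tauto
    rw [h6, h7, h2]
    ring

/-- No event at times `h, ..., k h`. -/
def N (E : ℝ≥0 → Set Ω) (h : ℝ≥0) (k : ℕ) : Set Ω := ⋂ i ∈ Finset.Icc 1 k, (D E h i)ᶜ

theorem N_zero (E : ℝ≥0 → Set Ω) (h : ℝ≥0) : N E h 0 = Set.univ := by
  simp [N]

theorem N_succ (E : ℝ≥0 → Set Ω) (h : ℝ≥0) (k : ℕ) :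
    N E h (k + 1) = N E h k ∩ (D E h (k + 1))ᶜ := by
  classical
  unfold N
  rw [← Finset.insert_Icc_right_eq_Icc_add_one (by omega), Finset.set_biInter_insert, Set.inter_comm]

/-- First passage weights. -/
noncomputable def fp (P : Measure Ω) (E : ℝ≥0 → Set Ω) (h : ℝ≥0) (k : ℕ) : ℝ :=
  P.real (N E h k ∩ D E h (k + 1))

theorem fp_nonneg (h : ℝ≥0) (k : ℕ) : 0 ≤ fp P E h k := measureReal_nonneg

theorem fp_zero (h : ℝ≥0) : fp P E h 0 = P.real (E h) := by
  unfold fp
  rw [N_zero, Set.univ_inter]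
  unfold D
  norm_num

theorem fp_sum (H : Regen P E) (h : ℝ≥0) (K : ℕ) :
    ∑ i ∈ range K, fp P E h i + P.real (N E h K) = 1 := by
  induction K with
  | zero => simp [N_zero]
  | succ K ih =>
    rw [Finset.sum_range_succ]
    have h1 := measureReal_inter_add_sdiff (μ := P) (s := N E h K) (D_meas H h (K + 1))
    have h2 : N E h K \ D E h (K + 1) = N E h (K + 1) := by
      rw [N_succ, Set.sdiff_eq]
    rw [h2] at h1
    have h3 : fp P E h K = P.real (N E h K ∩ D E h (K + 1)) := rfl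
    linarith

theorem fp_sum_le (H : Regen P E) (h : ℝ≥0) (K : ℕ) : ∑ i ∈ range K, fp P E h i ≤ 1 := by
  have := fp_sum H h K
  have h1 : 0 ≤ P.real (N E h K) := measureReal_nonneg
  linarith

theorem fp_split (H : Regen P E) (h : ℝ≥0) (n K : ℕ) (hK : K ≤ n + 1) :
    P.real (D E h (n + 1)) = ∑ k ∈ range K, fp P E h k * P.real (D E h (n - k))
      + P.real (N E h K ∩ D E h (n + 1)) := by
  induction K with
  | zero => simp [N_zero]
  | succ K ih =>
    rw [ih (by omega), Finset.sum_range_succ]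
    have h1 := measureReal_inter_add_sdiff (μ := P) (s := N E h K ∩ D E h (n + 1))
      (D_meas H h (K + 1))
    have h2 : (N E h K ∩ D E h (n + 1)) \ D E h (K + 1) = N E h (K + 1) ∩ D E h (n + 1) := by
      rw [N_succ]
      ext ω; simp only [Set.mem_inter_iff, Set.mem_sdiff, Set.mem_compl_iff]; tauto
    have h3 := comp_reg H h (Finset.Icc 1 K) ∅ (K + 1) (n - K) (by
      intro i hi
      rw [Finset.mem_Icc] at hi
      omega) (by simp)
    have h4 : K + 1 + (n - K) = n + 1 := by omega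
    rw [h4] at h3
    have h5 : (N E h K ∩ D E h (n + 1)) ∩ D E h (K + 1)
        = (⋂ i ∈ Finset.Icc 1 K, (D E h i)ᶜ)
          ∩ (((⋂ i ∈ (∅ : Finset ℕ), D E h i) ∩ D E h (K + 1)) ∩ D E h (n + 1)) := by
      unfold N
      ext ω
      simp only [Set.mem_inter_iff, Finset.notMem_empty, Set.iInter_of_empty, Set.iInter_univ,
        Set.mem_univ, true_and]
      tauto
    have h6 : (⋂ i ∈ Finset.Icc 1 K, (D E h i)ᶜ)
          ∩ ((⋂ i ∈ (∅ : Finset ℕ), D E h i) ∩ D E h (K + 1)) = N E h K ∩ D E h (K + 1) := by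
      unfold N
      simp
    rw [h5, h3, h6, h2] at h1
    have h7 : fp P E h K = P.real (N E h K ∩ D E h (K + 1)) := rfl
    rw [h7]
    linarith

theorem fp_renewal (H : Regen P E) (h : ℝ≥0) (n : ℕ) :
    P.real (D E h (n + 1)) = ∑ p ∈ antidiagonal n, fp P E h p.1 * P.real (D E h p.2) := by
  rw [fp_split H h n (n + 1) le_rfl, N_succ,
    Finset.Nat.sum_antidiagonal_eq_sum_range_succ (fun a b => fp P E h a * P.real (D E h b)) n]
  have : N E h n ∩ (D E h (n + 1))ᶜ ∩ D E h (n + 1) = ∅ := by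
    ext ω; simp only [Set.mem_inter_iff, Set.mem_compl_iff, Set.mem_empty_iff_false]; tauto
  rw [this]
  simp

theorem D_eq_u (H : Regen P E) (h : ℝ≥0) (n : ℕ) : P.real (D E h n) = u (fp P E h) n := by
  induction n using Nat.strong_induction_on with
  | _ n ih =>
    cases n with
    | zero =>
      rw [u_zero]
      unfold D
      simpa using H.one
    | succ n =>
      rw [fp_renewal H, u_succ]
      refine Finset.sum_congr rfl fun p hp => ?_
      have := HasAntidiagonal.mem_antidiagonal.mp hp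
      rw [ih p.2 (by omega)]

/-- The inequality on a lattice. -/
theorem lattice_ineq (H : Regen P E) (h : ℝ≥0) (m n : ℕ) :
    P.real (E (((m + n : ℕ) : ℝ≥0) * h))
      ≤ Real.exp (-(P.real (E h) * (1 - P.real (E ((m : ℝ≥0) * h))))) := by
  have h1 := renewal_ineq (f := fp P E h) (fp_nonneg h) (fp_sum_le H h) m n
  rw [← D_eq_u H, ← D_eq_u H, fp_zero] at h1
  exact h1

theorem cont_ineq (H : Regen P E) (s δ : ℝ≥0) :
    P.real (E (s + δ)) ≤ P.real (E s) + (1 - P.real (E δ)) := by
  have h1 := snoc_reg H 0 (fun _ => δ) (fun _ _ _ => le_rfl) (s + δ) (by simp)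
  have h2 : ⋂ _ : Fin 1, E δ = E δ := by
    ext ω; simp
  rw [h2] at h1
  simp only [add_tsub_cancel_right] at h1
  have h3 := measureReal_inter_add_sdiff (μ := P) (s := E (s + δ)) (H.meas δ)
  rw [Set.inter_comm, h1] at h3
  have h4 : P.real (E (s + δ) \ E δ) ≤ P.real (E δ)ᶜ := by
    exact measureReal_mono (fun ω hω => hω.2) (measure_ne_top _ _)
  rw [probReal_compl_eq_one_sub (H.meas δ)] at h4
  have h5 : P.real (E δ) * P.real (E s) ≤ P.real (E s) :=
    mul_le_of_le_one_left measureReal_nonneg measureReal_le_one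
  linarith

theorem regen_ineq (H : Regen P E) (hstd : Tendsto (fun t => P.real (E t)) (𝓝[>] 0) (𝓝 1))
    {t s : ℝ≥0} (hts : t ≤ s) : P.real (E s) ≤ Real.exp (P.real (E t) - 1) := by
  set q : ℝ≥0 → ℝ := fun t => P.real (E t) with hq
  have hstd0 : Tendsto q (𝓝 0) (𝓝 1) := by
    have h1 : ContinuousWithinAt q (Set.Ioi 0) 0 := by
      unfold ContinuousWithinAt
      have : q 0 = 1 := H.one
      rw [this]
      exact hstd
    have h2 := continuousWithinAt_Ioi_iff_Ici.mp h1
    have h3 : Set.Ici (0 : ℝ≥0) = Set.univ := by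
      ext x; simp
    rw [h3, continuousWithinAt_univ] at h2
    unfold ContinuousAt at h2
    have : q 0 = 1 := H.one
    rwa [this] at h2
  rcases eq_or_lt_of_le (zero_le : (0 : ℝ≥0) ≤ t) with ht | ht
  · rw [← ht, H.one, sub_self, Real.exp_zero]
    exact measureReal_le_one
  · set h : ℕ → ℝ≥0 := fun m => t / ((m : ℝ≥0) + 1) with hh
    have hpos : ∀ m, 0 < h m := fun m => by
      simp only [hh]
      positivity
    have hmul : ∀ m : ℕ, ((m : ℝ≥0) + 1) * h m = t := by
      intro m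
      simp only [hh]
      field_simp
    set n : ℕ → ℕ := fun m => ⌊(s - t) / h m⌋₊ with hn
    have hle : ∀ m, (((m + 1 + n m : ℕ) : ℝ≥0)) * h m ≤ s := by
      intro m
      have h1 : (n m : ℝ≥0) ≤ (s - t) / h m := Nat.floor_le zero_le
      have h2 : (n m : ℝ≥0) * h m ≤ s - t := by
        rwa [le_div_iff₀ (hpos m)] at h1
      push_cast
      rw [add_mul, hmul m]
      calc t + (n m : ℝ≥0) * h m ≤ t + (s - t) := by gcongr
        _ = s := add_tsub_cancel_of_le hts
    have hge : ∀ m, s ≤ (((m + 1 + n m : ℕ) : ℝ≥0)) * h m + h m := by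
      intro m
      have h1 : (s - t) / h m < (n m : ℝ≥0) + 1 := Nat.lt_floor_add_one _
      have h2 : s - t ≤ ((n m : ℝ≥0) + 1) * h m := by
        rw [div_lt_iff₀ (hpos m)] at h1
        exact h1.le
      push_cast
      rw [add_mul, hmul m]
      calc s = t + (s - t) := (add_tsub_cancel_of_le hts).symm
        _ ≤ t + ((n m : ℝ≥0) + 1) * h m := by gcongr
        _ = t + (n m : ℝ≥0) * h m + h m := by ring
    set δ : ℕ → ℝ≥0 := fun m => s - (((m + 1 + n m : ℕ) : ℝ≥0)) * h m with hδ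
    have hδle : ∀ m, δ m ≤ h m := fun m => by
      simp only [hδ]
      rw [tsub_le_iff_left]
      exact hge m
    have hh0 : Tendsto h atTop (𝓝 0) := by
      have h1 : Tendsto (fun m : ℕ => (t : ℝ) * (1 / ((m : ℝ) + 1))) atTop (𝓝 ((t : ℝ) * 0)) :=
        tendsto_one_div_add_atTop_nhds_zero_nat.const_mul _
      rw [mul_zero] at h1
      rw [← NNReal.tendsto_coe]
      refine h1.congr fun m => ?_
      simp only [hh]
      push_cast
      ring
    have hδ0 : Tendsto δ atTop (𝓝 0) :=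
      tendsto_of_tendsto_of_tendsto_of_le_of_le tendsto_const_nhds hh0
        (fun m => zero_le) hδle
    have hineq : ∀ m, q s ≤ Real.exp (-(q (h m) * (1 - q t))) + (1 - q (δ m)) := by
      intro m
      have h1 := lattice_ineq H (h m) (m + 1) (n m)
      have h2 := cont_ineq H ((((m + 1 + n m : ℕ) : ℝ≥0)) * h m) (δ m)
      have h3 : (((m + 1 + n m : ℕ) : ℝ≥0)) * h m + δ m = s := by
        simp only [hδ]
        exact add_tsub_cancel_of_le (hle m)
      rw [h3] at h2
      have h4 : ((m + 1 : ℕ) : ℝ≥0) * h m = t := by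
        push_cast
        exact hmul m
      rw [h4] at h1
      simp only [hq]
      linarith
    have hlim : Tendsto (fun m => Real.exp (-(q (h m) * (1 - q t))) + (1 - q (δ m))) atTop
        (𝓝 (Real.exp (-(1 * (1 - q t))) + (1 - 1))) := by
      have h1 := hstd0.comp hh0
      have h2 := hstd0.comp hδ0
      exact ((Real.continuous_exp.tendsto _).comp ((h1.mul_const _).neg)).add
        (tendsto_const_nhds.sub h2)
    have hfin := ge_of_tendsto' hlim hineq
    have h5 : Real.exp (-(1 * (1 - q t))) + (1 - 1) = Real.exp (q t - 1) := by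
      rw [sub_self, add_zero]
      congr 1
      ring
    rw [h5] at hfin
    exact hfin

/-- **The sharp inequality** for standard p-functions: `p s ≤ exp (p t - 1)` for `t ≤ s`. -/
theorem pfun_ineq {p : ℝ≥0 → ℝ} (hp : IsStandardPFunction p) {t s : ℝ≥0} (hts : t ≤ s) :
    p s ≤ Real.exp (p t - 1) := by
  obtain ⟨⟨hp0, Ω, mΩ, P, E, hP, hmeas, hval, hreg⟩, hstd⟩ := hp
  have H : Regen P E := ⟨hmeas, by rw [hval, hp0], fun n t ht => by rw [hreg n t ht, hval]⟩
  have h1 := regen_ineq H (by simpa only [hval] using hstd) hts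
  simpa only [hval] using h1

theorem pfun_nonneg {p : ℝ≥0 → ℝ} (hp : IsPFunction p) (t : ℝ≥0) : 0 ≤ p t := by
  obtain ⟨_, Ω, mΩ, P, E, hP, hmeas, hval, hreg⟩ := hp
  rw [← hval]
  exact measureReal_nonneg

end Pool.Agent.W2helper79.PF
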