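import Mathlib

/-!
# A sharp inequality for renewal sequences

Let `f k ≥ 0` be the weight of a jump of size `k + 1`, with total mass at most `1`, and let
`u` be the renewal sequence `u 0 = 1`, `u (n+1) = ∑ f k * u (n - k)`.  We prove
`u (m + n) ≤ exp (- f 0 * (1 - u m))`.
-/

open Finset PowerSeries

namespace Pool.Agent.W2helper79.PF

/-- Generating function of the renewal sequence. -/
noncomputable def U (f : ℕ → ℝ) : ℝ⟦X⟧ := (1 - X * PowerSeries.mk f)⁻¹

/-- The renewal sequence. -/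
noncomputable def u (f : ℕ → ℝ) (n : ℕ) : ℝ := coeff n (U f)

/-- The convolution square of the renewal sequence. -/
noncomputable def w (f : ℕ → ℝ) (n : ℕ) : ℝ := coeff n (U f * U f)

/-- Running maximum of `w`, over indices smaller than `n`. -/
noncomputable def W (f : ℕ → ℝ) : ℕ → ℝ
  | 0 => 0
  | (n + 1) => max (W f n) (w f n)

theorem U_mul (f : ℕ → ℝ) : (1 - X * PowerSeries.mk f) * U f = 1 := by
  unfold U
  apply PowerSeries.mul_inv_cancel
  simp

theorem U_eq (f : ℕ → ℝ) : U f = 1 + X * (PowerSeries.mk f * U f) := by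
  have h := U_mul f
  linear_combination h

theorem u_zero (f : ℕ → ℝ) : u f 0 = 1 := by
  unfold u
  rw [U_eq]
  simp

theorem u_succ (f : ℕ → ℝ) (n : ℕ) :
    u f (n + 1) = ∑ p ∈ antidiagonal n, f p.1 * u f p.2 := by
  unfold u
  conv_lhs => rw [U_eq]
  rw [map_add, coeff_succ_X_mul, coeff_mul]
  simp [coeff_one]

theorem w_eq (f : ℕ → ℝ) (n : ℕ) : w f n = ∑ p ∈ antidiagonal n, u f p.1 * u f p.2 := by
  unfold w u
  rw [coeff_mul]

theorem w_zero (f : ℕ → ℝ) : w f 0 = 1 := by
  rw [w_eq]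
  simp [u_zero]

theorem w_succ (f : ℕ → ℝ) (n : ℕ) :
    w f (n + 1) = u f (n + 1) + ∑ p ∈ antidiagonal n, f p.1 * w f p.2 := by
  unfold w u
  have h : U f * U f = U f + X * (PowerSeries.mk f * (U f * U f)) := by
    have h := U_eq f
    calc U f * U f = (1 + X * (PowerSeries.mk f * U f)) * U f := by rw [← h]
      _ = _ := by ring
  conv_lhs => rw [h]
  rw [map_add, coeff_succ_X_mul, coeff_mul]
  simp

theorem u_nonneg {f : ℕ → ℝ} (hf : ∀ k, 0 ≤ f k) (n : ℕ) : 0 ≤ u f n := by
  induction n using Nat.strong_induction_on with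
  | _ n ih =>
    cases n with
    | zero => rw [u_zero]; norm_num
    | succ n =>
      rw [u_succ]
      refine Finset.sum_nonneg fun p hp => mul_nonneg (hf _) (ih _ ?_)
      have := HasAntidiagonal.mem_antidiagonal.mp hp
      omega

theorem w_nonneg {f : ℕ → ℝ} (hf : ∀ k, 0 ≤ f k) (n : ℕ) : 0 ≤ w f n := by
  rw [w_eq]
  exact Finset.sum_nonneg fun p _ => mul_nonneg (u_nonneg hf _) (u_nonneg hf _)

theorem sum_anti_fst (f : ℕ → ℝ) (n : ℕ) :
    ∑ p ∈ antidiagonal n, f p.1 = ∑ i ∈ range (n + 1), f i := by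
  rw [Finset.Nat.sum_antidiagonal_eq_sum_range_succ (fun i _ => f i) n]

theorem u_le_one {f : ℕ → ℝ} (hf : ∀ k, 0 ≤ f k) (hs : ∀ N, ∑ i ∈ range N, f i ≤ 1) (n : ℕ) :
    u f n ≤ 1 := by
  induction n using Nat.strong_induction_on with
  | _ n ih =>
    cases n with
    | zero => rw [u_zero]
    | succ n =>
      rw [u_succ]
      calc ∑ p ∈ antidiagonal n, f p.1 * u f p.2 ≤ ∑ p ∈ antidiagonal n, f p.1 := by
            refine Finset.sum_le_sum fun p hp => ?_
            have := HasAntidiagonal.mem_antidiagonal.mp hp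
            exact mul_le_of_le_one_right (hf _) (ih _ (by omega))
        _ = ∑ i ∈ range (n + 1), f i := sum_anti_fst f n
        _ ≤ 1 := hs _

theorem u_succ_ge {f : ℕ → ℝ} (hf : ∀ k, 0 ≤ f k) (n : ℕ) : f 0 * u f n ≤ u f (n + 1) := by
  rw [u_succ]
  exact Finset.single_le_sum (f := fun p : ℕ × ℕ => f p.1 * u f p.2)
    (fun p _ => mul_nonneg (hf _) (u_nonneg hf _)) (by simp : ((0, n) : ℕ × ℕ) ∈ antidiagonal n)

theorem W_nonneg {f : ℕ → ℝ} (hf : ∀ k, 0 ≤ f k) (n : ℕ) : 0 ≤ W f n := by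
  cases n with
  | zero => exact le_refl _
  | succ n => exact le_max_of_le_right (w_nonneg hf n)

theorem W_mono (f : ℕ → ℝ) : Monotone (W f) :=
  monotone_nat_of_le_succ fun _ => le_max_left _ _

theorem w_le_W (f : ℕ → ℝ) {z n : ℕ} (h : z < n) : w f z ≤ W f n :=
  (le_max_right (W f z) (w f z)).trans (W_mono f (Nat.succ_le_of_lt h))

theorem W_attain (f : ℕ → ℝ) (n : ℕ) (hn : 0 < n) (hf : ∀ k, 0 ≤ f k) :
    ∃ z < n, W f n = w f z := by
  induction n with
  | zero => omega
  | succ n ih =>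
    rcases le_total (W f n) (w f n) with h | h
    · exact ⟨n, by omega, by simp [W, h]⟩
    · rcases Nat.eq_zero_or_pos n with h0 | h0
      · subst h0
        refine ⟨0, by omega, ?_⟩
        have : W f 0 = 0 := rfl
        have h1 := w_nonneg hf 0
        simp only [W]
        exact max_eq_right h1
      · obtain ⟨z, hz, hz'⟩ := ih h0
        exact ⟨z, by omega, by simp only [W]; rw [max_eq_left h, hz']⟩

/-- Overshoot weights: `u (y + i) = ∑ r y a * u b` over `a + b = i`. -/
noncomputable def r (f : ℕ → ℝ) : ℕ → ℕ → ℝ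
  | 0, a => if a = 0 then 1 else 0
  | (y + 1), a => r f y (a + 1) + r f y 0 * f a

theorem r_nonneg {f : ℕ → ℝ} (hf : ∀ k, 0 ≤ f k) (y a : ℕ) : 0 ≤ r f y a := by
  induction y generalizing a with
  | zero => simp only [r]; split_ifs <;> norm_num
  | succ y ih => exact add_nonneg (ih _) (mul_nonneg (ih _) (hf _))

theorem r_sum {f : ℕ → ℝ} (hf : ∀ k, 0 ≤ f k) (hs : ∀ N, ∑ i ∈ range N, f i ≤ 1) (y N : ℕ) :
    ∑ a ∈ range N, r f y a ≤ 1 := by
  induction y generalizing N with
  | zero =>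
    simp only [r]
    rw [Finset.sum_ite_eq' (range N) 0 (fun _ => (1 : ℝ))]
    split_ifs <;> norm_num
  | succ y ih =>
    simp only [r]
    rw [Finset.sum_add_distrib, ← Finset.mul_sum]
    have h1 := ih (N + 1)
    rw [Finset.sum_range_succ' (fun a => r f y a) N] at h1
    have h2 : r f y 0 * ∑ i ∈ range N, f i ≤ r f y 0 := by
      exact mul_le_of_le_one_right (r_nonneg hf _ _) (hs N)
    linarith

theorem u_shift (f : ℕ → ℝ) (y i : ℕ) :
    u f (y + i) = ∑ p ∈ antidiagonal i, r f y p.1 * u f p.2 := by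
  induction y generalizing i with
  | zero =>
    cases i with
    | zero => simp [r]
    | succ i =>
      rw [Finset.Nat.sum_antidiagonal_succ]
      simp [r]
  | succ y ih =>
    have h1 : y + 1 + i = y + (i + 1) := by ring
    rw [h1, ih (i + 1), Finset.Nat.sum_antidiagonal_succ]
    simp only [r]
    rw [u_succ, Finset.mul_sum, ← Finset.sum_add_distrib]
    refine Finset.sum_congr rfl fun p _ => ?_
    ring

theorem tail_conv (f : ℕ → ℝ) (y n : ℕ) :
    ∑ p ∈ antidiagonal n, u f (y + p.1) * u f p.2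
      = ∑ p ∈ antidiagonal n, r f y p.1 * w f p.2 := by
  have h1 : (PowerSeries.mk fun i => u f (y + i)) = PowerSeries.mk (r f y) * U f := by
    ext n
    rw [coeff_mk, coeff_mul, u_shift]
    simp [u]
  have h2 : coeff n ((PowerSeries.mk fun i => u f (y + i)) * U f) = coeff n (PowerSeries.mk (r f y) * (U f * U f)) := by
    rw [h1, mul_assoc]
  rw [coeff_mul, coeff_mul] at h2
  simpa [u, w] using h2

theorem tail_le {f : ℕ → ℝ} (hf : ∀ k, 0 ≤ f k) (hs : ∀ N, ∑ i ∈ range N, f i ≤ 1) (y n : ℕ) :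
    ∑ p ∈ antidiagonal n, u f (y + p.1) * u f p.2 ≤ W f (n + 1) := by
  rw [tail_conv]
  calc ∑ p ∈ antidiagonal n, r f y p.1 * w f p.2
      ≤ ∑ p ∈ antidiagonal n, r f y p.1 * W f (n + 1) := by
        refine Finset.sum_le_sum fun p hp => ?_
        have := HasAntidiagonal.mem_antidiagonal.mp hp
        exact mul_le_mul_of_nonneg_left (w_le_W f (by omega)) (r_nonneg hf _ _)
    _ = (∑ i ∈ range (n + 1), r f y i) * W f (n + 1) := by
        rw [← Finset.sum_mul, sum_anti_fst (r f y) n]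
    _ ≤ W f (n + 1) := mul_le_of_le_one_left (W_nonneg hf _) (r_sum hf hs y _)


/-- The comparison function. -/
noncomputable def C (b ρ : ℝ) : ℝ := Real.exp (-(b * (1 - ρ)))

theorem C_one (b : ℝ) : C b 1 = 1 := by simp [C]

theorem le_C {b ρ : ℝ} (hb1 : b ≤ 1) (hρ : ρ ≤ 1) : ρ ≤ C b ρ := by
  have h := Real.add_one_le_exp (-(b * (1 - ρ)))
  unfold C
  nlinarith

theorem C_zero_le {b ρ : ℝ} (hb0 : 0 ≤ b) (hρ : 0 ≤ ρ) : C b 0 ≤ C b ρ := by
  unfold C
  apply Real.exp_le_exp.mpr
  nlinarith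

theorem C_pos (b ρ : ℝ) : 0 < C b ρ := Real.exp_pos _

/-- Enough to check the inequality where the comparison function is at least `c`. -/
theorem conv {b c v X : ℝ} (hb0 : 0 ≤ b) (hc0 : 0 ≤ c) (hc1 : c ≤ 1) (hv : b * c ≤ v)
    (h : ∀ ρ : ℝ, 0 ≤ ρ → ρ ≤ 1 → c ≤ C b ρ → X + ρ * v ≤ C b ρ) :
    ∀ ρ : ℝ, 0 ≤ ρ → ρ ≤ 1 → X + ρ * v ≤ C b ρ := by
  intro ρ h0 h1
  by_cases hc : c ≤ C b ρ
  · exact h ρ h0 h1 hc
  · push Not at hc
    have hcpos : 0 < c := (C_pos b ρ).trans hc
    have hbpos : 0 < b := by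
      rcases hb0.lt_or_eq with h | h
      · exact h
      · exfalso
        rw [← h] at hc
        simp [C] at hc
        linarith
    -- the level `ρ₁` with `C b ρ₁ = c`
    set ρ₁ := 1 + Real.log c / b with hρ₁
    have hC1 : C b ρ₁ = c := by
      unfold C
      have : -(b * (1 - ρ₁)) = Real.log c := by
        rw [hρ₁]; field_simp; ring
      rw [this, Real.exp_log hcpos]
    have hlog : Real.log c ≤ 0 := Real.log_nonpos hc0 hc1
    have hρ₁1 : ρ₁ ≤ 1 := by
      have : Real.log c / b ≤ 0 := div_nonpos_of_nonpos_of_nonneg hlog hb0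
      linarith
    have hlt : ρ < ρ₁ := by
      by_contra hcon
      push Not at hcon
      have : C b ρ₁ ≤ C b ρ := by
        unfold C
        apply Real.exp_le_exp.mpr
        nlinarith
      linarith
    have h2 := h ρ₁ (by linarith) hρ₁1 (le_of_eq hC1.symm)
    rw [hC1] at h2
    have h3 : C b ρ = c * Real.exp (-(b * (ρ₁ - ρ))) := by
      rw [← hC1]
      unfold C
      rw [← Real.exp_add]
      congr 1
      ring
    have h4 := Real.add_one_le_exp (-(b * (ρ₁ - ρ)))
    rw [h3]
    have h5 : (ρ₁ - ρ) * (b * c) ≤ (ρ₁ - ρ) * v :=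
      mul_le_mul_of_nonneg_left hv (by linarith)
    have h6 : c * (-(b * (ρ₁ - ρ)) + 1) ≤ c * Real.exp (-(b * (ρ₁ - ρ))) :=
      mul_le_mul_of_nonneg_left h4 hc0
    nlinarith

/-- The tail weight times the renewal sequence. -/
noncomputable def hh (f : ℕ → ℝ) (v : ℕ) : ℝ := (1 - ∑ i ∈ range (v + 1), f i) * u f v

/-- The convolution of `hh` with the renewal sequence. -/
noncomputable def ss (f : ℕ → ℝ) (n : ℕ) : ℝ := ∑ p ∈ antidiagonal n, hh f p.1 * u f p.2

theorem ss_zero (f : ℕ → ℝ) : ss f 0 = 1 - f 0 := by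
  simp [ss, hh, u_zero]

theorem ss_succ (f : ℕ → ℝ) (n : ℕ) :
    ss f (n + 1) = hh f (n + 1) + ∑ p ∈ antidiagonal n, f p.1 * ss f p.2 := by
  have h0 : ∀ m, ss f m = coeff m (PowerSeries.mk (hh f) * U f) := by
    intro m
    rw [coeff_mul]
    simp [ss, u]
  have h : PowerSeries.mk (hh f) * U f
      = PowerSeries.mk (hh f) + X * (PowerSeries.mk f * (PowerSeries.mk (hh f) * U f)) := by
    have h := U_eq f
    calc PowerSeries.mk (hh f) * U f
        = PowerSeries.mk (hh f) * (1 + X * (PowerSeries.mk f * U f)) := by rw [← h]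
      _ = _ := by ring
  rw [h0, h, map_add, coeff_succ_X_mul, coeff_mul]
  simp [h0]

theorem ss_le {f : ℕ → ℝ} (hf : ∀ k, 0 ≤ f k) (hs : ∀ N, ∑ i ∈ range N, f i ≤ 1) (n : ℕ) :
    ∀ ρ : ℝ, 0 ≤ ρ → ρ ≤ 1 → ss f n + ρ * u f (n + 1) ≤ C (f 0) ρ := by
  have hb1 : f 0 ≤ 1 := by simpa using hs 1
  induction n using Nat.strong_induction_on with
  | _ n ih =>
    refine conv (hf 0) (u_nonneg hf n) (u_le_one hf hs n) (u_succ_ge hf n) ?_
    intro ρ h0 h1 hc
    cases n with
    | zero =>
      rw [ss_zero, u_succ]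
      rw [u_zero] at hc
      simp only [Finset.Nat.antidiagonal_zero, sum_singleton, u_zero, mul_one]
      have := hf 0
      nlinarith
    | succ n =>
      rw [ss_succ, u_succ, Finset.Nat.sum_antidiagonal_succ']
      simp only [u_zero, mul_one]
      have h2 : ∑ p ∈ antidiagonal n, f p.1 * ss f p.2
          + ρ * ∑ p ∈ antidiagonal n, f p.1 * u f (p.2 + 1)
          ≤ (∑ i ∈ range (n + 1), f i) * C (f 0) ρ := by
        rw [Finset.mul_sum, ← Finset.sum_add_distrib, ← sum_anti_fst f n, Finset.sum_mul]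
        refine Finset.sum_le_sum fun p hp => ?_
        have hp' := HasAntidiagonal.mem_antidiagonal.mp hp
        have := ih p.2 (by omega) ρ h0 h1
        have h3 := mul_le_mul_of_nonneg_left this (hf p.1)
        linarith
      have h4 : hh f (n + 1) ≤ (1 - ∑ i ∈ range (n + 2), f i) * C (f 0) ρ := by
        unfold hh
        exact mul_le_mul_of_nonneg_left hc (by linarith [hs (n + 2)])
      have h5 : ρ * f (n + 1) ≤ f (n + 1) * C (f 0) ρ := by
        rw [mul_comm]
        exact mul_le_mul_of_nonneg_left (le_C hb1 h1) (hf _)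
      rw [Finset.sum_range_succ f (n + 1)] at h4
      rw [mul_add]
      nlinarith

theorem ss_le' {f : ℕ → ℝ} (hf : ∀ k, 0 ≤ f k) (hs : ∀ N, ∑ i ∈ range N, f i ≤ 1) (n : ℕ) :
    ss f n ≤ C (f 0) 0 := by
  have := ss_le hf hs n 0 (le_refl _) zero_le_one
  simpa using this

/-- The double sum identity behind the non-record case. -/
theorem swap_sum (f : ℕ → ℝ) (z : ℕ) :
    ∑ i ∈ range (z + 1), f i * ∑ p ∈ antidiagonal (z - i), u f (i + p.1) * u f p.2
      = ∑ q ∈ antidiagonal z, (∑ i ∈ range (q.1 + 1), f i) * u f q.1 * u f q.2 := by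
  rw [Finset.Nat.sum_antidiagonal_eq_sum_range_succ
    (fun a b => (∑ i ∈ range (a + 1), f i) * u f a * u f b) z]
  have h1 : ∀ v ∈ range z.succ, (∑ i ∈ range (v + 1), f i) * u f v * u f (z - v)
      = ∑ i ∈ range (v + 1), f i * (u f v * u f (z - v)) := by
    intro v _
    rw [mul_assoc, Finset.sum_mul]
  rw [Finset.sum_congr rfl h1]
  rw [Finset.sum_comm' (s' := fun i => Ico i (z + 1)) (t' := range (z + 1))]
  · refine Finset.sum_congr rfl fun i hi => ?_
    rw [Finset.mul_sum, Finset.sum_Ico_eq_sum_range]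
    rw [Finset.mem_range] at hi
    rw [Finset.Nat.sum_antidiagonal_eq_sum_range_succ
      (fun a b => f i * (u f (i + a) * u f b)) (z - i)]
    have h2 : (z - i).succ = z + 1 - i := by omega
    rw [h2]
    refine Finset.sum_congr rfl fun k hk => ?_
    rw [Nat.sub_sub]
  · intro v i
    simp only [Finset.mem_range, Finset.mem_Ico]
    omega

theorem PW {f : ℕ → ℝ} (hf : ∀ k, 0 ≤ f k) (hs : ∀ N, ∑ i ∈ range N, f i ≤ 1) (n : ℕ) :
    W f (n + 1) - ∑ p ∈ antidiagonal n, f p.1 * W f p.2 ≤ max (u f n) (C (f 0) 0) := by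
  rcases le_total (W f n) (w f n) with hrec | hrec
  · refine le_trans ?_ (le_max_left _ _)
    have h1 : W f (n + 1) = w f n := by simp only [W]; exact max_eq_right hrec
    rw [h1]
    cases n with
    | zero =>
      simp [w_zero, u_zero, W]
    | succ n =>
      rw [w_succ, Finset.Nat.sum_antidiagonal_succ']
      have h2 : ∑ p ∈ antidiagonal n, f p.1 * w f p.2
          ≤ ∑ p ∈ antidiagonal n, f p.1 * W f (p.2 + 1) :=
        Finset.sum_le_sum fun p _ => mul_le_mul_of_nonneg_left (w_le_W f (by omega)) (hf _)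
      have h3 : W f 0 = 0 := rfl
      simp only [h3, mul_zero]
      linarith
  · refine le_trans ?_ (le_max_right _ _)
    have h1 : W f (n + 1) = W f n := by simp only [W]; exact max_eq_left hrec
    rw [h1]
    rcases Nat.eq_zero_or_pos n with h0 | h0
    · subst h0
      have : W f 0 = 0 := rfl
      simp [this]
      exact (C_pos _ _).le
    · obtain ⟨z, hz, hz'⟩ := W_attain f n h0 hf
      have h2 : ss f z = w f z
          - ∑ q ∈ antidiagonal z, (∑ i ∈ range (q.1 + 1), f i) * u f q.1 * u f q.2 := by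
        rw [ss, w_eq, ← Finset.sum_sub_distrib]
        refine Finset.sum_congr rfl fun q _ => ?_
        unfold hh
        ring
      have h3 := ss_le' hf hs z
      rw [h2, ← swap_sum] at h3
      rw [hz']
      have h4 : ∑ i ∈ range (z + 1), f i * ∑ p ∈ antidiagonal (z - i), u f (i + p.1) * u f p.2
          ≤ ∑ p ∈ antidiagonal n, f p.1 * W f p.2 := by
        rw [Finset.Nat.sum_antidiagonal_eq_sum_range_succ (fun a b => f a * W f b) n]
        calc ∑ i ∈ range (z + 1), f i * ∑ p ∈ antidiagonal (z - i), u f (i + p.1) * u f p.2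
            ≤ ∑ i ∈ range (z + 1), f i * W f (n - i) := by
              refine Finset.sum_le_sum fun i hi => mul_le_mul_of_nonneg_left ?_ (hf _)
              rw [Finset.mem_range] at hi
              exact (tail_le hf hs i (z - i)).trans (W_mono f (by omega))
          _ ≤ ∑ i ∈ range n.succ, f i * W f (n - i) := by
              refine Finset.sum_le_sum_of_subset_of_nonneg ?_ ?_
              · intro i hi
                rw [Finset.mem_range] at *
                omega
              · intro i _ _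
                exact mul_nonneg (hf _) (W_nonneg hf _)
      linarith

end Pool.Agent.W2helper79.PF

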